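import Mathlib

/-!
# Bernstein-Sato ideals of tuples of holomorphic functions on open subsets of `ℂⁿ`

For a tuple `F = (F₁,…,F_r)` of holomorphic functions on an open set of `ℂⁿ`, a function
`G : (Fin r → ℂ) → (Fin n → ℂ) → ℂ`, `(s, z) ↦ G s z`, which is polynomial in `s` with
coefficients holomorphic on the locus `F₁⋯F_r ≠ 0`, stands for the element `G · F^s` of
`𝒪[1/(F₁⋯F_r)][s] · F^s`.
-/

namespace Pool.Agent.BS

open MvPolynomial

/-- The `i`-th partial derivative at `z` of a function `g : ℂⁿ → ℂ`. -/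
noncomputable def pd {n : ℕ} (i : Fin n) (g : (Fin n → ℂ) → ℂ) (z : Fin n → ℂ) : ℂ :=
  fderiv ℂ g z (Pi.single i 1)

/-- `InShift F U G`: the element `G · F^s` lies in the left `𝒟(U)[s]`-submodule
`𝒟(U)[s] · (F₁⋯F_r) F^s` generated by `F₁⋯F_r · F^s`, where `𝒟(U)` is the ring of holomorphic
linear differential operators on the open set `U ⊆ ℂⁿ`.  The operator `∂_i` acts by
`∂_i (G F^s) = (∂_i G + (∑_j s_j (∂_i F_j) / F_j) G) F^s`. -/
inductive InShift {n r : ℕ} (F : Fin r → (Fin n → ℂ) → ℂ) (U : Set (Fin n → ℂ)) :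
    ((Fin r → ℂ) → (Fin n → ℂ) → ℂ) → Prop
  | gen : InShift F U (fun _ z => ∏ j, F j z)
  | add {G H : (Fin r → ℂ) → (Fin n → ℂ) → ℂ} :
      InShift F U G → InShift F U H → InShift F U (fun s z => G s z + H s z)
  | mul_holo {G : (Fin r → ℂ) → (Fin n → ℂ) → ℂ} (a : (Fin n → ℂ) → ℂ) :
      AnalyticOnNhd ℂ a U → InShift F U G → InShift F U (fun s z => a z * G s z)
  | mul_param {G : (Fin r → ℂ) → (Fin n → ℂ) → ℂ} (j : Fin r) :
      InShift F U G → InShift F U (fun s z => s j * G s z)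
  | diff {G : (Fin r → ℂ) → (Fin n → ℂ) → ℂ} (i : Fin n) :
      InShift F U G →
        InShift F U (fun s z => pd i (G s) z + (∑ j, s j * (pd i (F j) z / F j z)) * G s z)

theorem InShift.mono {n r : ℕ} {F : Fin r → (Fin n → ℂ) → ℂ} {U V : Set (Fin n → ℂ)}
    (h : V ⊆ U) {G : (Fin r → ℂ) → (Fin n → ℂ) → ℂ} (hG : InShift F U G) : InShift F V G := by
  induction hG with
  | gen => exact .gen
  | add _ _ h1 h2 => exact .add h1 h2
  | mul_holo a ha _ h1 => exact .mul_holo a (ha.mono h) h1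
  | mul_param j _ h1 => exact .mul_param j h1
  | diff i _ h1 => exact .diff i h1

theorem InShift.mul_poly {n r : ℕ} {F : Fin r → (Fin n → ℂ) → ℂ} {U : Set (Fin n → ℂ)}
    (c : MvPolynomial (Fin r) ℂ) {G : (Fin r → ℂ) → (Fin n → ℂ) → ℂ} (hG : InShift F U G) :
    InShift F U (fun s z => eval s c * G s z) := by
  induction c using MvPolynomial.induction_on with
  | C a =>
    have := InShift.mul_holo (fun _ => a) analyticOnNhd_const hG
    simpa using this
  | add p q hp hq =>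
    have := InShift.add hp hq
    simpa [add_mul] using this
  | mul_X p j hp =>
    have := InShift.mul_param j hp
    convert this using 3
    simp
    ring

/-- The Bernstein-Sato ideal `B_F ⊆ ℂ[s₁,…,s_r]` of the tuple `F` on the open set `W ⊆ ℂⁿ`: all
polynomials `b` such that on `W` (that is, locally near every point of `W`)
`b(s) F^s ∈ 𝒟[s] · F₁⋯F_r F^s`. -/
def bernsteinSatoIdeal {n r : ℕ} (F : Fin r → (Fin n → ℂ) → ℂ) (W : Set (Fin n → ℂ)) :
    Ideal (MvPolynomial (Fin r) ℂ) where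
  carrier := {b | ∀ p ∈ W, ∃ U : Set (Fin n → ℂ), IsOpen U ∧ p ∈ U ∧
    ∃ G : (Fin r → ℂ) → (Fin n → ℂ) → ℂ, InShift F U G ∧
      ∀ z ∈ U, (∀ j, F j z ≠ 0) → ∀ s : Fin r → ℂ, G s z = eval s b}
  add_mem' := by
    intro b c hb hc p hp
    obtain ⟨U, hU, hpU, G, hG, hGe⟩ := hb p hp
    obtain ⟨V, hV, hpV, H, hH, hHe⟩ := hc p hp
    refine ⟨U ∩ V, hU.inter hV, ⟨hpU, hpV⟩, _,
      .add (hG.mono Set.inter_subset_left) (hH.mono Set.inter_subset_right), ?_⟩
    intro z hz hF s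
    simp only [map_add, hGe z hz.1 hF s, hHe z hz.2 hF s]
  zero_mem' := by
    intro p hp
    refine ⟨Set.univ, isOpen_univ, trivial, _,
      .mul_holo (fun _ => 0) analyticOnNhd_const .gen, ?_⟩
    intro z hz hF s
    simp
  smul_mem' := by
    intro c b hb p hp
    obtain ⟨U, hU, hpU, G, hG, hGe⟩ := hb p hp
    refine ⟨U, hU, hpU, _, hG.mul_poly c, ?_⟩
    intro z hz hF s
    simp only [smul_eq_mul, map_mul, hGe z hz hF s]

theorem mem_bernsteinSatoIdeal {n r : ℕ} {F : Fin r → (Fin n → ℂ) → ℂ} {W : Set (Fin n → ℂ)}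
    {b : MvPolynomial (Fin r) ℂ} : b ∈ bernsteinSatoIdeal F W ↔
    ∀ p ∈ W, ∃ U : Set (Fin n → ℂ), IsOpen U ∧ p ∈ U ∧
    ∃ G : (Fin r → ℂ) → (Fin n → ℂ) → ℂ, InShift F U G ∧
      ∀ z ∈ U, (∀ j, F j z ≠ 0) → ∀ s : Fin r → ℂ, G s z = eval s b := Iff.rfl

/-- A rational affine subspace of `ℂ^r`: the nonempty common zero set of finitely many
affine-linear polynomials `∑ c_i s_i + c₀` with rational coefficients. -/
def IsRationalAffineSubspace {r : ℕ} (Y : Set (Fin r → ℂ)) : Prop :=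
  Y.Nonempty ∧ ∃ E : Finset ((Fin r → ℚ) × ℚ),
    Y = {s | ∀ e ∈ E, ∑ i, (e.1 i : ℂ) * s i + (e.2 : ℂ) = 0}

end Pool.Agent.BS
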