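import Mathlib

/-! Recursion identities for the residue coefficients. -/

namespace Pool.Agent.BS

/-- auxiliary sequence -/
noncomputable def S (t : ℂ) : ℕ → ℤ → ℂ
  | 0, E => Complex.Gamma (2 * t + E)
  | 1, E => -Complex.Gamma (2 * t + E)
  | (M + 2), E => -(S t (M + 1) E + 2 * t * S t M (E - 1)) / (M + 2)

noncomputable def Sz (t : ℂ) (M E : ℤ) : ℂ := if M < 0 then 0 else S t M.toNat E

theorem Sz_neg {t : ℂ} {M E : ℤ} (h : M < 0) : Sz t M E = 0 := by simp [Sz, h]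

theorem Sz_nat {t : ℂ} (M : ℕ) (E : ℤ) : Sz t M E = S t M E := by simp [Sz]

theorem Sz_rec (t : ℂ) (M E : ℤ) :
    M * Sz t M E + Sz t (M - 1) E + 2 * t * Sz t (M - 2) (E - 1) = 0 := by
  rcases lt_or_ge M 0 with h | h
  · rw [Sz_neg h, Sz_neg (by omega), Sz_neg (by omega)]; ring
  · obtain ⟨m, rfl⟩ := Int.eq_ofNat_of_zero_le h
    rcases m with _ | _ | m
    · rw [Sz_neg (M := ((0 : ℕ) : ℤ) - 1) (by norm_num),
        Sz_neg (M := ((0 : ℕ) : ℤ) - 2) (by norm_num)]; simp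
    · rw [Sz_neg (M := ((0 + 1 : ℕ) : ℤ) - 2) (by norm_num)]
      have e : ((0 + 1 : ℕ) : ℤ) - 1 = ((0 : ℕ) : ℤ) := by norm_num
      rw [e, Sz_nat, Sz_nat]
      simp [S]
    · have e1 : ((m + 1 + 1 : ℕ) : ℤ) - 1 = ((m + 1 : ℕ) : ℤ) := by push_cast; ring
      have e2 : ((m + 1 + 1 : ℕ) : ℤ) - 2 = ((m : ℕ) : ℤ) := by push_cast; ring
      rw [e1, e2, Sz_nat, Sz_nat, Sz_nat]
      have h2 : ((m : ℂ) + 2) ≠ 0 := by
        have : ((m + 2 : ℕ) : ℂ) ≠ 0 := Nat.cast_ne_zero.mpr (by omega)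
        simpa using this
      rw [show m + 1 + 1 = m + 2 from rfl, S]
      push_cast
      field_simp
      ring

theorem S_shift {t : ℂ} (ht : ∀ E : ℤ, 2 * t + E ≠ 0) (M : ℕ) : ∀ E : ℤ,
    Sz t M (E + 1) = (2 * t + E) * Sz t M E + t * Sz t (M - 2) (E - 1) := by
  have hG : ∀ E : ℤ, Complex.Gamma (2 * t + (E + 1 : ℤ)) = (2 * t + E) * Complex.Gamma (2 * t + E) := by
    intro E
    have := Complex.Gamma_add_one _ (ht E)
    rw [← this]; push_cast; ring_nf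
  induction M using Nat.strong_induction_on with
  | _ M ih =>
    intro E
    rcases M with _ | _ | M
    · rw [Sz_neg (M := ((0 : ℕ) : ℤ) - 2) (by norm_num), Sz_nat, Sz_nat]
      simp only [S]; rw [hG]; ring
    · rw [Sz_neg (M := ((0 + 1 : ℕ) : ℤ) - 2) (by norm_num), Sz_nat, Sz_nat]
      simp only [S]; rw [hG]; ring
    · have r1 := Sz_rec t ((M + 1 + 1 : ℕ) : ℤ) (E + 1)
      have r2 := Sz_rec t ((M + 1 + 1 : ℕ) : ℤ) E
      have e1 : ((M + 1 + 1 : ℕ) : ℤ) - 1 = ((M + 1 : ℕ) : ℤ) := by push_cast; ring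
      have e2 : ((M + 1 + 1 : ℕ) : ℤ) - 2 = ((M : ℕ) : ℤ) := by push_cast; ring
      rw [e1, e2] at r1 r2
      rw [e2]
      have i1 := ih (M + 1) (by omega) E
      have i0 := ih M (by omega) (E - 1)
      have r3 := Sz_rec t ((M : ℕ) : ℤ) (E - 1)
      have e3 : ((M + 1 : ℕ) : ℤ) - 2 = (M : ℤ) - 1 := by push_cast; ring
      rw [e3] at i1
      have e4 : E - 1 + 1 = E := by ring
      rw [e4] at i0
      have e5 : E + 1 - 1 = E := by ring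
      rw [e5] at r1
      have h2 : (((M + 1 + 1 : ℕ) : ℤ) : ℂ) ≠ 0 := by
        exact_mod_cast Nat.succ_ne_zero (M + 1)
      have hc : (((M + 1 + 1 : ℕ) : ℤ) : ℂ) = (M : ℂ) + 2 := by push_cast; ring
      apply mul_left_cancel₀ h2
      rw [hc] at r1 r2 ⊢
      push_cast at r3 i0 i1 r1 r2 ⊢
      linear_combination r1 - (2 * t + E) * r2 - i1 - t * r3 - 2 * t * i0
theorem Sz_shift {t : ℂ} (ht : ∀ E : ℤ, 2 * t + E ≠ 0) (M E : ℤ) :
    Sz t M (E + 1) = (2 * t + E) * Sz t M E + t * Sz t (M - 2) (E - 1) := by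
  rcases lt_or_ge M 0 with h | h
  · rw [Sz_neg h, Sz_neg h, Sz_neg (by omega)]; ring
  · obtain ⟨m, rfl⟩ := Int.eq_ofNat_of_zero_le h
    exact S_shift ht m E

/-- The residue coefficient `Res (x^a y^b f^{-n} F^s)`. -/
noncomputable def K (t : ℂ) (a b n : ℤ) : ℂ :=
  Complex.Gamma (((6 + 5 * n - a - b : ℤ) : ℂ) + 3 / 4) *
    (Complex.Gamma ((n : ℂ) + (2 * t + 3 / 4)))⁻¹ *
    Sz t (26 + 20 * n - 4 * a - 5 * b) (20 + 16 * n - 3 * a - 4 * b)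

theorem K_zero {t : ℂ} {a b n : ℤ} (h : 26 + 20 * n < 4 * a + 5 * b) : K t a b n = 0 := by
  unfold K; rw [Sz_neg (by omega)]; ring

theorem int_add_ne (k : ℤ) : ((k : ℂ) + 3 / 4) ≠ 0 := by
  intro h
  have h2 : (4 * k + 3 : ℂ) = 0 := by linear_combination 4 * h
  have h3 : (4 * k + 3 : ℤ) = 0 := by exact_mod_cast h2
  omega

theorem irr1 {t : ℂ} (ht : ∀ q : ℚ, t ≠ q) (E : ℤ) : 2 * t + E ≠ 0 := by
  intro h
  apply ht (-E / 2)
  push_cast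
  linear_combination h / 2

theorem irr2 {t : ℂ} (ht : ∀ q : ℚ, t ≠ q) (n : ℤ) : (n : ℂ) + (2 * t + 3 / 4) ≠ 0 := by
  intro h
  apply ht (-n / 2 - 3 / 8)
  push_cast
  linear_combination h / 2

theorem gam1 (k : ℤ) : Complex.Gamma (((k + 1 : ℤ) : ℂ) + 3 / 4) =
    ((k : ℂ) + 3 / 4) * Complex.Gamma ((k : ℂ) + 3 / 4) := by
  rw [← Complex.Gamma_add_one _ (int_add_ne k)]; push_cast; ring_nf

theorem gam2 {t : ℂ} (ht : ∀ q : ℚ, t ≠ q) (n : ℤ) :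
    (Complex.Gamma ((n : ℂ) + (2 * t + 3 / 4)))⁻¹ = ((n : ℂ) + (2 * t + 3 / 4)) *
      (Complex.Gamma (((n + 1 : ℤ) : ℂ) + (2 * t + 3 / 4)))⁻¹ := by
  have h := Complex.Gamma_add_one _ (irr2 ht n)
  have e : (((n + 1 : ℤ) : ℂ) + (2 * t + 3 / 4)) = (n : ℂ) + (2 * t + 3 / 4) + 1 := by
    push_cast; ring
  rw [e, h, mul_inv, ← mul_assoc, mul_inv_cancel₀ (irr2 ht n), one_mul]

/-- exactness in the `y` direction -/
theorem K_y {t : ℂ} (ht : ∀ q : ℚ, t ≠ q) (a b n : ℤ) :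
    b * K t a (b - 1) n + ((-2 * t - 3 / 4) - n) *
      (4 * K t a (b + 3) (n + 1) + K t (a + 4) b (n + 1) + 2 * t * K t (a + 3) (b + 1) (n + 1)) = 0 := by
  unfold K
  have r1 := Sz_rec t (31 + 20 * n - 4 * a - 5 * b) (24 + 16 * n - 3 * a - 4 * b)
  have g1 := gam1 (7 + 5 * n - a - b)
  rw [gam2 ht n]
  have a1 : 6 + 5 * n - a - (b - 1) = 7 + 5 * n - a - b := by ring
  have a2 : 26 + 20 * n - 4 * a - 5 * (b - 1) = 31 + 20 * n - 4 * a - 5 * b := by ring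
  have a3 : 20 + 16 * n - 3 * a - 4 * (b - 1) = 24 + 16 * n - 3 * a - 4 * b := by ring
  have b1 : 6 + 5 * (n + 1) - a - (b + 3) = 7 + 5 * n - a - b + 1 := by ring
  have b2 : 26 + 20 * (n + 1) - 4 * a - 5 * (b + 3) = 31 + 20 * n - 4 * a - 5 * b := by ring
  have b3 : 20 + 16 * (n + 1) - 3 * a - 4 * (b + 3) = 24 + 16 * n - 3 * a - 4 * b := by ring
  have c1 : 6 + 5 * (n + 1) - (a + 4) - b = 7 + 5 * n - a - b := by ring
  have c2 : 26 + 20 * (n + 1) - 4 * (a + 4) - 5 * b = 31 + 20 * n - 4 * a - 5 * b - 1 := by ring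
  have c3 : 20 + 16 * (n + 1) - 3 * (a + 4) - 4 * b = 24 + 16 * n - 3 * a - 4 * b := by ring
  have d1 : 6 + 5 * (n + 1) - (a + 3) - (b + 1) = 7 + 5 * n - a - b := by ring
  have d2 : 26 + 20 * (n + 1) - 4 * (a + 3) - 5 * (b + 1) = 31 + 20 * n - 4 * a - 5 * b - 2 := by
    ring
  have d3 : 20 + 16 * (n + 1) - 3 * (a + 3) - 4 * (b + 1) = 24 + 16 * n - 3 * a - 4 * b - 1 := by
    ring
  rw [a1, a2, a3, b1, b2, b3, c1, c2, c3, d1, d2, d3, g1]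
  generalize Complex.Gamma (((7 + 5 * n - a - b : ℤ) : ℂ) + 3 / 4) = g at *
  generalize (Complex.Gamma (((n + 1 : ℤ) : ℂ) + (2 * t + 3 / 4)))⁻¹ = h at *
  generalize Sz t (31 + 20 * n - 4 * a - 5 * b) (24 + 16 * n - 3 * a - 4 * b) = s0 at *
  generalize Sz t (31 + 20 * n - 4 * a - 5 * b - 1) (24 + 16 * n - 3 * a - 4 * b) = s1 at *
  generalize Sz t (31 + 20 * n - 4 * a - 5 * b - 2) (24 + 16 * n - 3 * a - 4 * b - 1) = s2 at *
  push_cast at r1 ⊢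
  linear_combination (-(g * h * ((n : ℂ) + (2 * t + 3 / 4)))) * r1

/-- exactness in the `x` direction -/
theorem K_x {t : ℂ} (ht : ∀ q : ℚ, t ≠ q) (a b n : ℤ) :
    (a + (10 * t - 5)) * K t (a - 1) b n + ((-2 * t - 3 / 4) - n) *
      (5 * K t (a + 4) b (n + 1) + 4 * K t (a + 3) (b + 1) (n + 1) +
        3 * t * K t (a + 2) (b + 2) (n + 1)) = 0 := by
  unfold K
  have r1 := Sz_rec t (30 + 20 * n - 4 * a - 5 * b) (23 + 16 * n - 3 * a - 4 * b)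
  have r2 := Sz_shift (irr1 ht) (30 + 20 * n - 4 * a - 5 * b) (23 + 16 * n - 3 * a - 4 * b)
  rw [gam2 ht n]
  have a1 : 6 + 5 * n - (a - 1) - b = 7 + 5 * n - a - b := by ring
  have a2 : 26 + 20 * n - 4 * (a - 1) - 5 * b = 30 + 20 * n - 4 * a - 5 * b := by ring
  have a3 : 20 + 16 * n - 3 * (a - 1) - 4 * b = 23 + 16 * n - 3 * a - 4 * b := by ring
  have b1 : 6 + 5 * (n + 1) - (a + 4) - b = 7 + 5 * n - a - b := by ring
  have b2 : 26 + 20 * (n + 1) - 4 * (a + 4) - 5 * b = 30 + 20 * n - 4 * a - 5 * b := by ring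
  have b3 : 20 + 16 * (n + 1) - 3 * (a + 4) - 4 * b = 23 + 16 * n - 3 * a - 4 * b + 1 := by ring
  have c1 : 6 + 5 * (n + 1) - (a + 3) - (b + 1) = 7 + 5 * n - a - b := by ring
  have c2 : 26 + 20 * (n + 1) - 4 * (a + 3) - 5 * (b + 1) = 30 + 20 * n - 4 * a - 5 * b - 1 := by
    ring
  have c3 : 20 + 16 * (n + 1) - 3 * (a + 3) - 4 * (b + 1) = 23 + 16 * n - 3 * a - 4 * b := by ring
  have d1 : 6 + 5 * (n + 1) - (a + 2) - (b + 2) = 7 + 5 * n - a - b := by ring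
  have d2 : 26 + 20 * (n + 1) - 4 * (a + 2) - 5 * (b + 2) = 30 + 20 * n - 4 * a - 5 * b - 2 := by
    ring
  have d3 : 20 + 16 * (n + 1) - 3 * (a + 2) - 4 * (b + 2) = 23 + 16 * n - 3 * a - 4 * b - 1 := by
    ring
  rw [a1, a2, a3, b1, b2, b3, c1, c2, c3, d1, d2, d3]
  generalize Complex.Gamma (((7 + 5 * n - a - b : ℤ) : ℂ) + 3 / 4) = g at *
  generalize (Complex.Gamma (((n + 1 : ℤ) : ℂ) + (2 * t + 3 / 4)))⁻¹ = h at *
  generalize Sz t (30 + 20 * n - 4 * a - 5 * b) (23 + 16 * n - 3 * a - 4 * b + 1) = s3 at *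
  generalize Sz t (30 + 20 * n - 4 * a - 5 * b) (23 + 16 * n - 3 * a - 4 * b) = s0 at *
  generalize Sz t (30 + 20 * n - 4 * a - 5 * b - 1) (23 + 16 * n - 3 * a - 4 * b) = s1 at *
  generalize Sz t (30 + 20 * n - 4 * a - 5 * b - 2) (23 + 16 * n - 3 * a - 4 * b - 1) = s2 at *
  push_cast at r1 r2 ⊢
  subst r2
  linear_combination (-4 * (g * h * ((n : ℂ) + (2 * t + 3 / 4)))) * r1

/-- multiplication by `f / f` -/
theorem K_f {t : ℂ} (ht : ∀ q : ℚ, t ≠ q) (a b n : ℤ) :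
    K t (a + 5) b (n + 1) + K t a (b + 4) (n + 1) + K t (a + 4) (b + 1) (n + 1) +
      t * K t (a + 3) (b + 2) (n + 1) = K t a b n := by
  unfold K
  have r1 := Sz_rec t (26 + 20 * n - 4 * a - 5 * b) (20 + 16 * n - 3 * a - 4 * b)
  have r2 := Sz_shift (irr1 ht) (26 + 20 * n - 4 * a - 5 * b) (20 + 16 * n - 3 * a - 4 * b)
  have g1 := gam1 (6 + 5 * n - a - b)
  rw [gam2 ht n]
  have b1 : 6 + 5 * (n + 1) - (a + 5) - b = 6 + 5 * n - a - b := by ring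
  have b2 : 26 + 20 * (n + 1) - 4 * (a + 5) - 5 * b = 26 + 20 * n - 4 * a - 5 * b := by ring
  have b3 : 20 + 16 * (n + 1) - 3 * (a + 5) - 4 * b = 20 + 16 * n - 3 * a - 4 * b + 1 := by ring
  have e1 : 6 + 5 * (n + 1) - a - (b + 4) = 6 + 5 * n - a - b + 1 := by ring
  have e2 : 26 + 20 * (n + 1) - 4 * a - 5 * (b + 4) = 26 + 20 * n - 4 * a - 5 * b := by ring
  have e3 : 20 + 16 * (n + 1) - 3 * a - 4 * (b + 4) = 20 + 16 * n - 3 * a - 4 * b := by ring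
  have c1 : 6 + 5 * (n + 1) - (a + 4) - (b + 1) = 6 + 5 * n - a - b := by ring
  have c2 : 26 + 20 * (n + 1) - 4 * (a + 4) - 5 * (b + 1) = 26 + 20 * n - 4 * a - 5 * b - 1 := by
    ring
  have c3 : 20 + 16 * (n + 1) - 3 * (a + 4) - 4 * (b + 1) = 20 + 16 * n - 3 * a - 4 * b := by ring
  have d1 : 6 + 5 * (n + 1) - (a + 3) - (b + 2) = 6 + 5 * n - a - b := by ring
  have d2 : 26 + 20 * (n + 1) - 4 * (a + 3) - 5 * (b + 2) = 26 + 20 * n - 4 * a - 5 * b - 2 := by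
    ring
  have d3 : 20 + 16 * (n + 1) - 3 * (a + 3) - 4 * (b + 2) = 20 + 16 * n - 3 * a - 4 * b - 1 := by
    ring
  rw [b1, b2, b3, c1, c2, c3, d1, d2, d3, e1, e2, e3, g1]
  generalize Complex.Gamma (((6 + 5 * n - a - b : ℤ) : ℂ) + 3 / 4) = g at *
  generalize (Complex.Gamma (((n + 1 : ℤ) : ℂ) + (2 * t + 3 / 4)))⁻¹ = h at *
  generalize Sz t (26 + 20 * n - 4 * a - 5 * b) (20 + 16 * n - 3 * a - 4 * b + 1) = s3 at *
  generalize Sz t (26 + 20 * n - 4 * a - 5 * b) (20 + 16 * n - 3 * a - 4 * b) = s0 at *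
  generalize Sz t (26 + 20 * n - 4 * a - 5 * b - 1) (20 + 16 * n - 3 * a - 4 * b) = s1 at *
  generalize Sz t (26 + 20 * n - 4 * a - 5 * b - 2) (20 + 16 * n - 3 * a - 4 * b - 1) = s2 at *
  push_cast at r1 r2 ⊢
  subst r2
  linear_combination (g * h) * r1

theorem K_neg_one {t : ℂ} (ht : ∀ q : ℚ, t ≠ q) (i j : ℕ) : K t (i + 1) j (-1) = 0 := by
  rcases Nat.eq_zero_or_pos (i + j) with h | h
  · have hi : i = 0 := by omega
    have hj : j = 0 := by omega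
    subst hi; subst hj
    unfold K
    have e : Sz t (26 + 20 * (-1) - 4 * (((0 : ℕ) : ℤ) + 1) - 5 * ((0 : ℕ) : ℤ))
        (20 + 16 * (-1) - 3 * (((0 : ℕ) : ℤ) + 1) - 4 * ((0 : ℕ) : ℤ)) = 0 := by
      have := Sz_nat (t := t) 2 1
      norm_num at this ⊢
      rw [this]
      simp only [S]
      have h1 := Complex.Gamma_add_one _ (irr1 ht 0)
      push_cast at h1 ⊢
      rw [add_zero] at h1
      simp [h1]
    rw [e]; ring
  · exact K_zero (by omega)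

theorem K_main {t : ℂ} (ht : ∀ q : ℚ, t ≠ q) : K t 4 2 0 ≠ 0 := by
  unfold K
  have e : Sz t (26 + 20 * 0 - 4 * 4 - 5 * 2) (20 + 16 * 0 - 3 * 4 - 4 * 2) =
      Complex.Gamma (2 * t) := by
    have := Sz_nat (t := t) 0 0
    norm_num at this ⊢
    rw [this]
    simp [S]
  rw [e]
  have h1 : ∀ m : ℕ, (2 * t : ℂ) ≠ -m := by
    intro m h
    apply irr1 ht m
    rw [h]; push_cast; ring
  have h2 : ∀ m : ℕ, (((0 : ℤ) : ℂ) + (2 * t + 3 / 4)) ≠ -m := by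
    intro m h
    apply irr2 ht m
    push_cast at h ⊢
    linear_combination h
  have h3 : ∀ m : ℕ, (((6 + 5 * 0 - 4 - 2 : ℤ) : ℂ) + 3 / 4) ≠ -m := by
    intro m h
    apply int_add_ne m
    push_cast at h ⊢
    linear_combination h
  exact mul_ne_zero (mul_ne_zero (Complex.Gamma_ne_zero h3) (inv_ne_zero (Complex.Gamma_ne_zero h2)))
    (Complex.Gamma_ne_zero h1)

end Pool.Agent.BS
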