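import Pool.Agent.helper88.BSPd

namespace Pool.Agent.BS

open MvPolynomial

/-- `f = x⁵ + y⁴ + x⁴y + t x³y²`. -/
noncomputable def f1 (t : ℂ) (z : Fin 2 → ℂ) : ℂ :=
  z 0 ^ 5 + z 1 ^ 4 + z 0 ^ 4 * z 1 + t * z 0 ^ 3 * z 1 ^ 2

/-- The pair `(f, x)`. -/
noncomputable def FF (t : ℂ) : Fin 2 → (Fin 2 → ℂ) → ℂ := ![f1 t, fun z => z 0]

theorem f1_diff (t : ℂ) : Differentiable ℂ (f1 t) := by
  unfold f1; fun_prop

theorem pd0_f1 (t : ℂ) (z : Fin 2 → ℂ) :
    pd 0 (f1 t) z = 5 * z 0 ^ 4 + 4 * z 0 ^ 3 * z 1 + 3 * t * z 0 ^ 2 * z 1 ^ 2 := by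
  unfold f1
  rw [pd_add (by fun_prop) (by fun_prop), pd_add (by fun_prop) (by fun_prop),
    pd_add (by fun_prop) (by fun_prop), pd_mul (by fun_prop) (by fun_prop),
    pd_mul (by fun_prop) (by fun_prop), pd_const_mul _ (by fun_prop)]
  simp only [pd_proj_pow, pd_proj]
  simp
  ring

theorem pd1_f1 (t : ℂ) (z : Fin 2 → ℂ) :
    pd 1 (f1 t) z = 4 * z 1 ^ 3 + z 0 ^ 4 + 2 * t * z 0 ^ 3 * z 1 := by
  unfold f1
  rw [pd_add (by fun_prop) (by fun_prop), pd_add (by fun_prop) (by fun_prop),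
    pd_add (by fun_prop) (by fun_prop), pd_mul (by fun_prop) (by fun_prop),
    pd_mul (by fun_prop) (by fun_prop), pd_const_mul _ (by fun_prop)]
  simp only [pd_proj_pow, pd_proj]
  simp
  ring

/-- membership in the localised module. -/
def NN (t : ℂ) (P : Ideal (MvPolynomial (Fin 2) ℂ))
    (e : (Fin 2 → ℂ) → (Fin 2 → ℂ) → ℂ) : Prop :=
  ∃ b, b ∉ P ∧ ∃ G, InShift (FF t) Set.univ G ∧
    ∀ z, f1 t z ≠ 0 → z 0 ≠ 0 → ∀ s, G s z = eval s b * e s z

variable {t : ℂ} {P : Ideal (MvPolynomial (Fin 2) ℂ)}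

theorem NN.congr {e e' : (Fin 2 → ℂ) → (Fin 2 → ℂ) → ℂ} (h : NN t P e)
    (H : ∀ z, f1 t z ≠ 0 → z 0 ≠ 0 → ∀ s, e s z = e' s z) : NN t P e' := by
  obtain ⟨b, hb, G, hG, hGe⟩ := h
  exact ⟨b, hb, G, hG, fun z h1 h2 s => by rw [hGe z h1 h2 s, H z h1 h2 s]⟩

theorem NN.add [hP : P.IsPrime] {e e' : (Fin 2 → ℂ) → (Fin 2 → ℂ) → ℂ} (h : NN t P e)
    (h' : NN t P e') : NN t P (fun s z => e s z + e' s z) := by
  obtain ⟨b, hb, G, hG, hGe⟩ := h
  obtain ⟨b', hb', G', hG', hGe'⟩ := h'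
  refine ⟨b * b', fun hc => (hP.mem_or_mem hc).elim hb hb', _,
    (hG.mul_poly b').add (hG'.mul_poly b), fun z h1 h2 s => ?_⟩
  rw [hGe z h1 h2 s, hGe' z h1 h2 s, map_mul]; ring

theorem NN.mulz {e : (Fin 2 → ℂ) → (Fin 2 → ℂ) → ℂ} (h : NN t P e) (a : (Fin 2 → ℂ) → ℂ)
    (ha : ∀ z, AnalyticAt ℂ a z) : NN t P (fun s z => a z * e s z) := by
  obtain ⟨b, hb, G, hG, hGe⟩ := h
  refine ⟨b, hb, _, hG.mul_holo a (fun z _ => ha z), fun z h1 h2 s => ?_⟩
  rw [hGe z h1 h2 s]; ring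

theorem NN.muls {e : (Fin 2 → ℂ) → (Fin 2 → ℂ) → ℂ} (h : NN t P e)
    (c : MvPolynomial (Fin 2) ℂ) : NN t P (fun s z => eval s c * e s z) := by
  obtain ⟨b, hb, G, hG, hGe⟩ := h
  refine ⟨b, hb, _, hG.mul_poly c, fun z h1 h2 s => ?_⟩
  rw [hGe z h1 h2 s]; ring

theorem NN.cancel [hP : P.IsPrime] {e : (Fin 2 → ℂ) → (Fin 2 → ℂ) → ℂ}
    (c : MvPolynomial (Fin 2) ℂ) (hc : c ∉ P) (h : NN t P (fun s z => eval s c * e s z)) :
    NN t P e := by
  obtain ⟨b, hb, G, hG, hGe⟩ := h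
  refine ⟨b * c, fun h => (hP.mem_or_mem h).elim hb hc, G, hG, fun z h1 h2 s => ?_⟩
  rw [hGe z h1 h2 s, map_mul]; ring

theorem NN.diff {e : (Fin 2 → ℂ) → (Fin 2 → ℂ) → ℂ} (h : NN t P e) (i : Fin 2)
    (he : ∀ z, f1 t z ≠ 0 → z 0 ≠ 0 → ∀ s, DifferentiableAt ℂ (e s) z) :
    NN t P (fun s z => pd i (e s) z +
      (s 0 * (pd i (f1 t) z / f1 t z) + s 1 * ((if (0 : Fin 2) = i then 1 else 0) / z 0)) * e s z) := by
  obtain ⟨b, hb, G, hG, hGe⟩ := h
  refine ⟨b, hb, _, hG.diff i, fun z h1 h2 s => ?_⟩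
  have hev : G s =ᶠ[nhds z] fun z => eval s b * e s z := by
    have o1 : ∀ᶠ w in nhds z, f1 t w ≠ 0 := (f1_diff t).continuous.continuousAt.eventually_ne h1
    have o2 : ∀ᶠ w : Fin 2 → ℂ in nhds z, w 0 ≠ 0 :=
      (continuous_apply 0).continuousAt.eventually_ne h2
    filter_upwards [o1, o2] with w hw1 hw2 using hGe w hw1 hw2 s
  rw [pd_congr hev, pd_const_mul _ (he z h1 h2 s), hGe z h1 h2 s]
  simp only [FF, Fin.sum_univ_two, Matrix.cons_val_zero, Matrix.cons_val_one]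
  rw [pd_proj i 0 z]
  ring

/-- `a / f^l` in the localised module. -/
def AA (t : ℂ) (P : Ideal (MvPolynomial (Fin 2) ℂ)) (l : ℕ) (a : (Fin 2 → ℂ) → ℂ) : Prop :=
  NN t P (fun _ z => a z / f1 t z ^ l)

/-- `x^i y^j / f^l` in the localised module. -/
def MM (t : ℂ) (P : Ideal (MvPolynomial (Fin 2) ℂ)) (l i j : ℕ) : Prop :=
  AA t P l (fun z => z 0 ^ i * z 1 ^ j)

theorem AA.congr {l : ℕ} {a a' : (Fin 2 → ℂ) → ℂ} (h : AA t P l a) (H : ∀ z, a z = a' z) :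
    AA t P l a' := by
  have : a = a' := funext H
  rwa [← this]

theorem AA.add [hP : P.IsPrime] {l : ℕ} {a a' : (Fin 2 → ℂ) → ℂ} (h : AA t P l a)
    (h' : AA t P l a') : AA t P l (fun z => a z + a' z) :=
  (NN.add h h').congr fun z _ _ s => by ring

theorem AA.mulz {l : ℕ} {a : (Fin 2 → ℂ) → ℂ} (h : AA t P l a) (c : (Fin 2 → ℂ) → ℂ)
    (hc : ∀ z, AnalyticAt ℂ c z) : AA t P l (fun z => c z * a z) :=
  (NN.mulz h c hc).congr fun z _ _ s => by ring

theorem AA.smul {l : ℕ} {a : (Fin 2 → ℂ) → ℂ} (h : AA t P l a) (c : ℂ) :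
    AA t P l (fun z => c * a z) :=
  (NN.mulz h (fun _ => c) (fun _ => analyticAt_const)).congr fun z _ _ s => by ring

theorem AA.fmul {l : ℕ} {a : (Fin 2 → ℂ) → ℂ} (h : AA t P l a) :
    AA t P (l + 1) (fun z => f1 t z * a z) :=
  NN.congr h fun z h1 _ s => by field_simp; ring

theorem AA.diffx {l : ℕ} {a : (Fin 2 → ℂ) → ℂ} (ha : Differentiable ℂ a)
    (h : AA t P l (fun z => z 0 * a z)) :
    NN t P (fun s z => (a z + z 0 * pd 0 a z + s 1 * a z) / f1 t z ^ l +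
      (s 0 - l) * (a z * (z 0 * pd 0 (f1 t) z)) / f1 t z ^ (l + 1)) := by
  have hd : ∀ z, f1 t z ≠ 0 → DifferentiableAt ℂ (fun z => z 0 * a z / f1 t z ^ l) z := by
    intro z hz
    have := f1_diff t
    have h1 : f1 t z ^ l ≠ 0 := pow_ne_zero _ hz
    have h2 : DifferentiableAt ℂ (fun z => z 0 * a z) z := by fun_prop
    have h3 : DifferentiableAt ℂ (fun z => f1 t z ^ l) z := by fun_prop
    simpa only [div_eq_mul_inv] using h2.fun_mul (h3.fun_inv h1)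
  refine (NN.diff h 0 (fun z h1 _ s => hd z h1)).congr fun z h1 h2 s => ?_
  have hf := f1_diff t
  have e1 : (fun z => z 0 * a z / f1 t z ^ l) = fun z => z 0 * a z * (f1 t z ^ l)⁻¹ := by
    funext z; rw [div_eq_mul_inv]
  have h1' : f1 t z ^ l ≠ 0 := pow_ne_zero _ h1
  rw [e1, pd_mul (by fun_prop) (by
    have h3 : DifferentiableAt ℂ (fun z => f1 t z ^ l) z := by fun_prop
    exact h3.inv h1'), pd_inv (g := fun z => f1 t z ^ l) (by fun_prop) h1',
    pd_mul (by fun_prop) (by fun_prop), pd_pow (by fun_prop), pd_proj]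
  rcases l with _ | l
  · simp
    field_simp
    ring
  · simp
    field_simp
    ring

theorem AA.diffy {l : ℕ} {a : (Fin 2 → ℂ) → ℂ} (ha : Differentiable ℂ a)
    (h : AA t P l a) :
    NN t P (fun s z => pd 1 a z / f1 t z ^ l +
      (s 0 - l) * (a z * pd 1 (f1 t) z) / f1 t z ^ (l + 1)) := by
  have hd : ∀ z, f1 t z ≠ 0 → DifferentiableAt ℂ (fun z => a z / f1 t z ^ l) z := by
    intro z hz
    have := f1_diff t
    have h1 : f1 t z ^ l ≠ 0 := pow_ne_zero _ hz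
    have h2 : DifferentiableAt ℂ (fun z => a z) z := by fun_prop
    have h3 : DifferentiableAt ℂ (fun z => f1 t z ^ l) z := by fun_prop
    simpa only [div_eq_mul_inv] using h2.fun_mul (h3.fun_inv h1)
  refine (NN.diff h 1 (fun z h1 _ s => hd z h1)).congr fun z h1 h2 s => ?_
  have hf := f1_diff t
  have e1 : (fun z => a z / f1 t z ^ l) = fun z => a z * (f1 t z ^ l)⁻¹ := by
    funext z; rw [div_eq_mul_inv]
  have h1' : f1 t z ^ l ≠ 0 := pow_ne_zero _ h1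
  rw [e1, pd_mul (by fun_prop) (by
    have h3 : DifferentiableAt ℂ (fun z => f1 t z ^ l) z := by fun_prop
    exact h3.inv h1'), pd_inv (g := fun z => f1 t z ^ l) (by fun_prop) h1',
    pd_pow (by fun_prop)]
  rcases l with _ | l
  · simp
    field_simp
  · simp
    field_simp
    ring

theorem MM.mul {l i j : ℕ} (h : MM t P l i j) (a b : ℕ) : MM t P l (i + a) (j + b) :=
  (AA.mulz h (fun z => z 0 ^ a * z 1 ^ b) (fun _ => by fun_prop)).congr fun z => by ring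

theorem MM.up {l i j : ℕ} (h : MM t P l i j) {i' j' : ℕ} (hi : i ≤ i') (hj : j ≤ j') :
    MM t P l i' j' := by
  have := h.mul (i' - i) (j' - j)
  rwa [Nat.add_sub_cancel' hi, Nat.add_sub_cancel' hj] at this

theorem pd0_mon (i j : ℕ) (z : Fin 2 → ℂ) :
    z 0 * pd 0 (fun z : Fin 2 → ℂ => z 0 ^ i * z 1 ^ j) z = i * (z 0 ^ i * z 1 ^ j) := by
  rw [pd_mul (by fun_prop) (by fun_prop), pd_proj_pow, pd_proj_pow]
  rcases i with _ | i
  · simp
  · simp; ring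

theorem pd1_mon (i j : ℕ) (z : Fin 2 → ℂ) :
    pd 1 (fun z : Fin 2 → ℂ => z 0 ^ i * z 1 ^ (j + 1)) z = (j + 1) * (z 0 ^ i * z 1 ^ j) := by
  rw [pd_mul (by fun_prop) (by fun_prop), pd_proj_pow, pd_proj_pow]
  simp; ring

theorem pd1_mon0 (i : ℕ) (z : Fin 2 → ℂ) :
    pd 1 (fun z : Fin 2 → ℂ => z 0 ^ i * z 1 ^ 0) z = 0 := by
  rw [pd_mul (by fun_prop) (by fun_prop), pd_proj_pow, pd_proj_pow]
  simp

theorem MM.lift_x [hP : P.IsPrime] (hs : ∀ l : ℕ, (X 0 - C (l : ℂ) : MvPolynomial (Fin 2) ℂ) ∉ P)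
    {l i j : ℕ} (h : MM t P l i j) :
    AA t P (l + 1) (fun z => z 0 ^ i * z 1 ^ j *
      (5 * z 0 ^ 5 + 4 * z 0 ^ 4 * z 1 + 3 * t * z 0 ^ 3 * z 1 ^ 2)) := by
  have h1 := AA.diffx (t := t) (P := P) (l := l) (a := fun z => z 0 ^ i * z 1 ^ j) (by fun_prop)
    (AA.mulz h (fun z => z 0) (fun _ => by fun_prop))
  have h2 := NN.muls h (-(C (1 + i : ℂ) + X 1))
  refine NN.cancel (X 0 - C (l : ℂ)) (hs l) ((h1.add h2).congr fun z hz _ s => ?_)
  rw [pd0_mon, pd0_f1]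
  simp only [map_neg, map_add, map_sub, eval_C, eval_X]
  field_simp
  ring

theorem MM.lift_y [hP : P.IsPrime] (hs : ∀ l : ℕ, (X 0 - C (l : ℂ) : MvPolynomial (Fin 2) ℂ) ∉ P)
    {l i j : ℕ} (h : MM t P l i j) :
    AA t P (l + 1) (fun z => z 0 ^ i * z 1 ^ (j + 1) *
      (4 * z 1 ^ 3 + z 0 ^ 4 + 2 * t * z 0 ^ 3 * z 1)) := by
  have h1 := AA.diffy (t := t) (P := P) (l := l) (a := fun z => z 0 ^ i * z 1 ^ (j + 1))
    (by fun_prop) (h.mul 0 1)
  have h2 := NN.muls h (-(C (j + 1 : ℂ)))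
  refine NN.cancel (X 0 - C (l : ℂ)) (hs l) ((h1.add h2).congr fun z hz _ s => ?_)
  rw [pd1_mon, pd1_f1]
  simp only [map_neg, map_sub, eval_C, eval_X]
  field_simp
  ring

theorem MM.lift_y0 [hP : P.IsPrime] (hs : ∀ l : ℕ, (X 0 - C (l : ℂ) : MvPolynomial (Fin 2) ℂ) ∉ P)
    {l i : ℕ} (h : MM t P l i 0) :
    AA t P (l + 1) (fun z => z 0 ^ i *
      (4 * z 1 ^ 3 + z 0 ^ 4 + 2 * t * z 0 ^ 3 * z 1)) := by
  have h1 := AA.diffy (t := t) (P := P) (l := l) (a := fun z => z 0 ^ i * z 1 ^ 0)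
    (by fun_prop) h
  refine NN.cancel (X 0 - C (l : ℂ)) (hs l) (h1.congr fun z hz _ s => ?_)
  rw [pd1_mon0, pd1_f1]
  simp only [map_sub, eval_C, eval_X]
  field_simp
  ring

/-- `x^i y^j g ∈ N_{l+1}` with `g = x⁴y + 2t x³y²`. -/
theorem MM.lift_g [hP : P.IsPrime] (hs : ∀ l : ℕ, (X 0 - C (l : ℂ) : MvPolynomial (Fin 2) ℂ) ∉ P)
    {l i j : ℕ} (h : MM t P l i j) :
    AA t P (l + 1) (fun z => z 0 ^ (i + 4) * z 1 ^ (j + 1) + 2 * t * (z 0 ^ (i + 3) * z 1 ^ (j + 2))) := by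
  have h1 := (h.lift_x hs).smul 4
  have h2 := (h.lift_y hs).smul 5
  have h3 := (AA.fmul h).smul (-20)
  refine ((h1.add h2).add h3).congr fun z => ?_
  simp only [f1]
  ring

/-- `x^i y^(j+4) ∈ N_{l+1}`. -/
theorem MM.y4 [hP : P.IsPrime] (hs : ∀ l : ℕ, (X 0 - C (l : ℂ) : MvPolynomial (Fin 2) ℂ) ∉ P)
    {l i j : ℕ} (h : MM t P l i j) : MM t P (l + 1) i (j + 4) := by
  have h1 := (h.lift_y hs).smul (1 / 4)
  have h2 := (h.lift_g hs).smul (-1 / 4)
  exact (h1.add h2).congr fun z => by ring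

/-- `x^(i+5) y^j - t x^(i+3) y^(j+2) ∈ N_{l+1}`. -/
theorem MM.rc [hP : P.IsPrime] (hs : ∀ l : ℕ, (X 0 - C (l : ℂ) : MvPolynomial (Fin 2) ℂ) ∉ P)
    {l i j : ℕ} (h : MM t P l i j) (h' : MM t P (l + 1) (i + 3) (j + 2)) :
    MM t P (l + 1) (i + 5) j := by
  have h1 := (h.lift_x hs).smul (1 / 5)
  have h2 := (h.lift_g hs).smul (-4 / 5)
  have h3 := AA.smul h' t
  exact ((h1.add h2).add h3).congr fun z => by ring

theorem MM.ry0 [hP : P.IsPrime] (hs : ∀ l : ℕ, (X 0 - C (l : ℂ) : MvPolynomial (Fin 2) ℂ) ∉ P)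
    {l i : ℕ} (h : MM t P l i 0) (h1 : MM t P (l + 1) (i + 4) 0)
    (h2 : MM t P (l + 1) (i + 3) 1) : MM t P (l + 1) i 3 := by
  have h3 := (h.lift_y0 hs).smul (1 / 4)
  have h4 := AA.smul h1 (-1 / 4)
  have h5 := AA.smul h2 (-t / 2)
  exact ((h3.add h4).add h5).congr fun z => by ring

/-- The linear form `20 s₀ + 4 s₁ + 9 + w`. -/
noncomputable def hw (w : ℂ) : MvPolynomial (Fin 2) ℂ := C 20 * X 0 + C 4 * X 1 + C (9 + w)

theorem MM.killA [hP : P.IsPrime] {l i j : ℕ} (hx : MM t P l (i + 1) j) (hy : MM t P l i (j + 1))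
    (hg : AA t P (l + 1) (fun z => z 0 ^ (i + 4) * z 1 ^ (j + 1) +
      2 * t * (z 0 ^ (i + 3) * z 1 ^ (j + 2)))) :
    NN t P (fun s z => eval s (hw (4 * i + 5 * j - 20 * l)) * (z 0 ^ i * z 1 ^ j / f1 t z ^ l)) := by
  have h1 := AA.diffx (t := t) (P := P) (l := l) (a := fun z => z 0 ^ i * z 1 ^ j) (by fun_prop)
    (AA.congr hx fun z => by ring)
  have h2 := AA.diffy (t := t) (P := P) (l := l) (a := fun z => z 0 ^ i * z 1 ^ (j + 1))
    (by fun_prop) hy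
  have h3 := NN.muls hg (-(X 0 - C (l : ℂ)))
  refine (((h1.muls (C 4)).add (h2.muls (C 5))).add h3).congr fun z hz _ s => ?_
  rw [pd0_mon, pd0_f1, pd1_mon, pd1_f1]
  simp only [map_neg, map_add, map_sub, map_mul, eval_C, eval_X, hw]
  have hz' : f1 t z ≠ 0 := hz
  field_simp
  simp only [f1]
  ring

theorem MM.kill [hP : P.IsPrime] (hk : ∀ w : ℤ, w ≠ 26 → hw (w : ℂ) ∉ P)
    {l i j : ℕ} (hx : MM t P l (i + 1) j) (hy : MM t P l i (j + 1))
    (h1 : MM t P (l + 1) (i + 4) (j + 1)) (h2 : MM t P (l + 1) (i + 3) (j + 2))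
    (hw26 : (4 * i + 5 * j - 20 * l : ℤ) ≠ 26) : MM t P l i j := by
  have hg := AA.add h1 (AA.smul h2 (2 * t))
  have := MM.killA hx hy hg
  refine NN.cancel _ ?_ this
  have := hk _ hw26
  push_cast at this
  exact this

theorem base_gen [hP : P.IsPrime] : AA t P 0 (fun z => z 0 * f1 t z) := by
  refine ⟨1, fun h => hP.ne_top (Ideal.eq_top_of_isUnit_mem _ h isUnit_one), _, .gen, ?_⟩
  intro z _ _ s
  simp [FF, Fin.prod_univ_two, mul_comm]

theorem base_y [hP : P.IsPrime] (h1 : (X 0 + 1 : MvPolynomial (Fin 2) ℂ) ∉ P) :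
    AA t P 0 (fun z => z 0 * (4 * z 1 ^ 3 + z 0 ^ 4 + 2 * t * z 0 ^ 3 * z 1)) := by
  have hf := f1_diff t
  have h := AA.diffy (t := t) (P := P) (l := 0) (a := fun z => z 0 * f1 t z) (by fun_prop) base_gen
  refine NN.cancel (X 0 + 1) h1 (h.congr fun z hz _ s => ?_)
  rw [pd_mul (by fun_prop) (by fun_prop), pd1_f1, pd_proj]
  simp only [map_add, map_one, eval_X]
  simp
  field_simp
  ring

theorem base_x [hP : P.IsPrime] :
    NN t P (fun s z => (1 + s 1) * f1 t z +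
      (1 + s 0) * (5 * z 0 ^ 5 + 4 * z 0 ^ 4 * z 1 + 3 * t * z 0 ^ 3 * z 1 ^ 2)) := by
  have hf := f1_diff t
  have h := AA.diffx (t := t) (P := P) (l := 0) (a := fun z => f1 t z) (by fun_prop) base_gen
  refine h.congr fun z hz _ s => ?_
  rw [show (fun z => f1 t z) = f1 t from rfl, pd0_f1]
  simp
  field_simp
  ring

theorem base_x2 [hP : P.IsPrime] (h1 : (X 0 + 1 : MvPolynomial (Fin 2) ℂ) ∉ P) :
    AA t P 0 (fun z => z 0 * (5 * z 0 ^ 5 + 4 * z 0 ^ 4 * z 1 + 3 * t * z 0 ^ 3 * z 1 ^ 2)) := by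
  have h := (base_x (t := t) (P := P)).mulz (fun z => z 0) (fun _ => by fun_prop)
  have h2 := NN.muls (base_gen (t := t) (P := P)) (-(X 1 + 1))
  refine NN.cancel (X 0 + 1) h1 ((h.add h2).congr fun z hz _ s => ?_)
  simp only [map_neg, map_add, map_one, eval_X]
  simp
  ring

theorem base_g [hP : P.IsPrime] (h1 : (X 0 + 1 : MvPolynomial (Fin 2) ℂ) ∉ P) :
    AA t P 0 (fun z => z 0 ^ 5 * z 1 + 2 * t * (z 0 ^ 4 * z 1 ^ 2)) := by
  have e1 := (base_x2 (t := t) h1).smul 4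
  have e2 := ((base_y (t := t) h1).mulz (fun z => z 1) (fun _ => by fun_prop)).smul 5
  have e3 := (base_gen (t := t) (P := P)).smul (-20)
  exact ((e1.add e2).add e3).congr fun z => by simp only [f1]; ring

theorem base_c1 [hP : P.IsPrime] (h1 : (X 0 + 1 : MvPolynomial (Fin 2) ℂ) ∉ P) :
    AA t P 0 (fun z => z 0 ^ 6 - t * (z 0 ^ 4 * z 1 ^ 2)) := by
  have e1 := (base_x2 (t := t) h1).smul (1 / 5)
  have e2 := (base_g (t := t) h1).smul (-4 / 5)
  exact (e1.add e2).congr fun z => by ring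

/-- The conditions on the prime `P` used in the chain. -/
structure Good (t : ℂ) (P : Ideal (MvPolynomial (Fin 2) ℂ)) : Prop where
  prime : P.IsPrime
  t0 : t ≠ 0
  t4 : 4 * t - 1 ≠ 0
  s1 : (X 0 + 1 : MvPolynomial (Fin 2) ℂ) ∉ P
  s2 : (X 1 + 1 : MvPolynomial (Fin 2) ℂ) ∉ P
  hs : ∀ l : ℕ, (X 0 - C (l : ℂ) : MvPolynomial (Fin 2) ℂ) ∉ P
  hk : ∀ w : ℤ, w ≠ 26 → hw (w : ℂ) ∉ P
  hB : hw 26 ∉ P ∨ (X 1 - C (10 * t - 5) : MvPolynomial (Fin 2) ℂ) ∉ P

theorem AA.cancelC {l : ℕ} {a : (Fin 2 → ℂ) → ℂ} (c : ℂ) (hc : c ≠ 0)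
    (h : AA t P l (fun z => c * a z)) : AA t P l a :=
  (h.smul c⁻¹).congr fun z => by field_simp

theorem chain (hg : Good t P) : MM t P 0 0 0 := by
  have hP := hg.prime
  have hs := hg.hs
  have hk := hg.hk
  have b4 := base_g (t := t) hg.s1
  have c1 := base_c1 (t := t) hg.s1
  have b2 := base_y (t := t) hg.s1
  -- level 0, high weights
  have m43 : MM t P 0 4 3 := by
    have e1 := c1.mulz (fun z => z 1) (fun _ => by fun_prop)
    have e2 := (b4.mulz (fun z => z 0) (fun _ => by fun_prop)).smul (-1)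
    have e3 := (b4.mulz (fun z => z 1) (fun _ => by fun_prop)).smul (2 * t)
    refine AA.cancelC (t * (4 * t - 1)) (mul_ne_zero hg.t0 hg.t4)
      (((e1.add e2).add e3).congr fun z => by ring)
  have m52 : MM t P 0 5 2 := by
    have e1 := b4.mulz (fun z => z 1) (fun _ => by fun_prop)
    have e2 := AA.smul m43 (-2 * t)
    exact (e1.add e2).congr fun z => by ring
  have m61 : MM t P 0 6 1 := by
    have e1 := b4.mulz (fun z => z 0) (fun _ => by fun_prop)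
    have e2 := AA.smul m52 (-2 * t)
    exact (e1.add e2).congr fun z => by ring
  have m70 : MM t P 0 7 0 := by
    have e1 := c1.mulz (fun z => z 0) (fun _ => by fun_prop)
    have e2 := AA.smul m52 t
    exact (e1.add e2).congr fun z => by ring
  have m33 : MM t P 0 3 3 := by
    have e1 := (b2.mulz (fun z => z 0 ^ 2) (fun _ => by fun_prop)).smul (1 / 4)
    have e2 := AA.smul m70 (-1 / 4)
    have e3 := AA.smul m61 (-t / 2)
    exact ((e1.add e2).add e3).congr fun z => by ring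
  have m24 : MM t P 0 2 4 := by
    have e1 := (b2.mulz (fun z => z 0 * z 1) (fun _ => by fun_prop)).smul (1 / 4)
    have e2 := AA.smul m61 (-1 / 4)
    have e3 := AA.smul m52 (-t / 2)
    exact ((e1.add e2).add e3).congr fun z => by ring
  have m15 : MM t P 0 1 5 := by
    have e1 := (b2.mulz (fun z => z 1 ^ 2) (fun _ => by fun_prop)).smul (1 / 4)
    have e2 := AA.smul m52 (-1 / 4)
    have e3 := AA.smul m43 (-t / 2)
    exact ((e1.add e2).add e3).congr fun z => by ring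
  have m06 : MM t P 0 0 6 := by
    have e1 := (base_x (t := t) (P := P)).mulz (fun z => z 1 ^ 2) (fun _ => by fun_prop)
    have e2 := NN.muls m52 (-(C 5 * (X 0 + 1) + (X 1 + 1)))
    have e3 := NN.muls m43 (-(C 4 * (X 0 + 1) + (X 1 + 1)))
    have e4 := NN.muls (m33.up (i' := 3) (j' := 4) (by norm_num) (by norm_num))
      (-(C t * (C 3 * (X 0 + 1) + (X 1 + 1))))
    refine NN.cancel (X 1 + 1) hg.s2 ((((e1.add e2).add e3).add e4).congr fun z hz _ s => ?_)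
    simp only [map_neg, map_add, map_mul, map_one, eval_C, eval_X, f1]
    simp
    ring
  -- level 1 elements
  have n65 : MM t P 1 6 5 := m61.y4 hs
  have n83 : MM t P 1 8 3 := m33.rc hs n65
  have n74 : MM t P 1 7 4 := m70.y4 hs
  -- the special step
  have k26 : NN t P (fun s z => eval s (hw 26) * (z 0 ^ 4 * z 1 ^ 2 / f1 t z ^ 0)) := by
    have := MM.killA (i := 4) (j := 2) m52 m43 (AA.add n83 (AA.smul n74 (2 * t)))
    refine this.congr fun z _ _ s => ?_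
    norm_num
  have kB : NN t P (fun s z => eval s (X 1 - C (10 * t - 5)) *
      (z 0 ^ 4 * z 1 ^ 2 / f1 t z ^ 0)) := by
    have d1 := AA.diffx (t := t) (P := P) (l := 0)
      (a := fun z => z 0 ^ 5 * z 1 + 2 * t * (z 0 ^ 4 * z 1 ^ 2)) (by fun_prop)
      (b4.mulz (fun z => z 0) (fun _ => by fun_prop))
    have d2 := AA.diffy (t := t) (P := P) (l := 0)
      (a := fun z => z 1 * (z 0 ^ 5 * z 1 + 2 * t * (z 0 ^ 4 * z 1 ^ 2))) (by fun_prop)
      (b4.mulz (fun z => z 1) (fun _ => by fun_prop))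
    have d3 := NN.muls b4 (-(C 34 + C 20 * X 0 + C 4 * X 1))
    have d4 := NN.muls (AA.add (AA.smul n83 (4 * t)) (AA.smul n74 (4 * t ^ 2))) (-X 0)
    have d5 := AA.diffx (t := t) (P := P) (l := 0)
      (a := fun z => z 0 ^ 4 * z 1 ^ 2) (by fun_prop)
      (AA.congr m52 fun z => by ring)
    have d6 := NN.muls (AA.add (AA.smul n83 4) (AA.smul n74 (3 * t))) (-X 0)
    have A1 := (((d1.muls (C 4)).add (d2.muls (C 5))).add d3).add d4
    have A2 := d5.add d6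
    refine ((A1.muls (C (-5))).add A2).congr fun z hz _ s => ?_
    have q1 : pd 0 (fun z : Fin 2 → ℂ => z 0 ^ 5 * z 1 + 2 * t * (z 0 ^ 4 * z 1 ^ 2)) z =
        5 * z 0 ^ 4 * z 1 + 2 * t * (4 * z 0 ^ 3 * z 1 ^ 2) := by
      rw [pd_add (by fun_prop) (by fun_prop), pd_const_mul _ (by fun_prop),
        pd_mul (by fun_prop) (by fun_prop), pd_mul (by fun_prop) (by fun_prop)]
      simp only [pd_proj_pow, pd_proj]
      simp
      ring
    have q2 : pd 1 (fun z : Fin 2 → ℂ =>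
        z 1 * (z 0 ^ 5 * z 1 + 2 * t * (z 0 ^ 4 * z 1 ^ 2))) z =
        2 * z 0 ^ 5 * z 1 + 2 * t * (3 * z 0 ^ 4 * z 1 ^ 2) := by
      rw [pd_mul (by fun_prop) (by fun_prop),
        pd_add (by fun_prop) (by fun_prop), pd_const_mul _ (by fun_prop),
        pd_mul (by fun_prop) (by fun_prop), pd_mul (by fun_prop) (by fun_prop)]
      simp only [pd_proj_pow, pd_proj]
      simp
      ring
    have q3 := pd0_mon 4 2 z
    rw [q1, q2, q3, pd0_f1, pd1_f1]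
    simp only [map_neg, map_add, map_sub, map_mul, eval_C, eval_X]
    have hz' : f1 t z ≠ 0 := hz
    field_simp
    simp only [f1]
    push_cast
    ring
  have m42 : MM t P 0 4 2 := by
    rcases hg.hB with h | h
    · exact NN.cancel _ h k26
    · exact NN.cancel _ h kB
  have m51 : MM t P 0 5 1 := by
    have e2 := AA.smul m42 (-2 * t)
    exact (b4.add e2).congr fun z => by ring
  have m60 : MM t P 0 6 0 := by
    have e2 := AA.smul m42 t
    exact (c1.add e2).congr fun z => by ring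
  have m23 : MM t P 0 2 3 := by
    have e1 := (b2.mulz (fun z => z 0) (fun _ => by fun_prop)).smul (1 / 4)
    have e2 := AA.smul m60 (-1 / 4)
    have e3 := AA.smul m51 (-t / 2)
    exact ((e1.add e2).add e3).congr fun z => by ring
  have m14 : MM t P 0 1 4 := by
    have e1 := (b2.mulz (fun z => z 1) (fun _ => by fun_prop)).smul (1 / 4)
    have e2 := AA.smul m51 (-1 / 4)
    have e3 := AA.smul m42 (-t / 2)
    exact ((e1.add e2).add e3).congr fun z => by ring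
  have m05 : MM t P 0 0 5 := by
    have e1 := (base_x (t := t) (P := P)).mulz (fun z => z 1) (fun _ => by fun_prop)
    have e2 := NN.muls m51 (-(C 5 * (X 0 + 1) + (X 1 + 1)))
    have e3 := NN.muls m42 (-(C 4 * (X 0 + 1) + (X 1 + 1)))
    have e4 := NN.muls m33 (-(C t * (C 3 * (X 0 + 1) + (X 1 + 1))))
    refine NN.cancel (X 1 + 1) hg.s2 ((((e1.add e2).add e3).add e4).congr fun z hz _ s => ?_)
    simp only [map_neg, map_add, map_mul, map_one, eval_C, eval_X, f1]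
    simp
    ring
  -- descending chain at level 0
  have n55 : MM t P 1 5 5 := m51.y4 hs
  have n73 : MM t P 1 7 3 := m23.rc hs n55
  have n64 : MM t P 1 6 4 := m60.y4 hs
  have m32 : MM t P 0 3 2 := MM.kill hk m42 m33 n73 n64 (by norm_num)
  have n82 : MM t P 1 8 2 := m32.rc hs n64
  have m41 : MM t P 0 4 1 := MM.kill hk m51 m42 n82 n73 (by norm_num)
  have n91 : MM t P 1 9 1 := m41.rc hs n73
  have m50 : MM t P 0 5 0 := MM.kill hk m60 m51 n91 n82 (by norm_num)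
  have n45 : MM t P 1 4 5 := m41.y4 hs
  have n36 : MM t P 1 3 6 := m32.y4 hs
  have m04 : MM t P 0 0 4 := MM.kill hk m14 m05 n45 n36 (by norm_num)
  have n54 : MM t P 1 5 4 := m50.y4 hs
  have m13 : MM t P 0 1 3 := MM.kill hk m23 m14 n54 n45 (by norm_num)
  have n63 : MM t P 1 6 3 := m13.rc hs n45
  have m22 : MM t P 0 2 2 := MM.kill hk m32 m23 n63 n54 (by norm_num)
  have n72 : MM t P 1 7 2 := m22.rc hs n54
  have m31 : MM t P 0 3 1 := MM.kill hk m41 m32 n72 n63 (by norm_num)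
  have n81 : MM t P 1 8 1 := m31.rc hs n63
  have m40 : MM t P 0 4 0 := MM.kill hk m50 m41 n81 n72 (by norm_num)
  have n44 : MM t P 1 4 4 := m40.y4 hs
  have n35 : MM t P 1 3 5 := m31.y4 hs
  have m03 : MM t P 0 0 3 := MM.kill hk m13 m04 n44 n35 (by norm_num)
  have n53 : MM t P 1 5 3 := m03.rc hs n35
  have m12 : MM t P 0 1 2 := MM.kill hk m22 m13 n53 n44 (by norm_num)
  have n62 : MM t P 1 6 2 := m12.rc hs n44
  have m21 : MM t P 0 2 1 := MM.kill hk m31 m22 n62 n53 (by norm_num)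
  have n71 : MM t P 1 7 1 := m21.rc hs n53
  have m30 : MM t P 0 3 0 := MM.kill hk m40 m31 n71 n62 (by norm_num)
  have n80 : MM t P 1 8 0 := m30.rc hs n62
  have n43 : MM t P 1 4 3 := m40.ry0 hs n80 n71
  have n34 : MM t P 1 3 4 := m30.y4 hs
  have m02 : MM t P 0 0 2 := MM.kill hk m12 m03 n43 n34 (by norm_num)
  have n52 : MM t P 1 5 2 := m02.rc hs n34
  have m11 : MM t P 0 1 1 := MM.kill hk m21 m12 n52 n43 (by norm_num)
  have n61 : MM t P 1 6 1 := m11.rc hs n43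
  have m20 : MM t P 0 2 0 := MM.kill hk m30 m21 n61 n52 (by norm_num)
  -- level 1 and 2
  have n70 : MM t P 1 7 0 := m20.rc hs n52
  have n33 : MM t P 1 3 3 := m30.ry0 hs n70 n61
  have o65 : MM t P 2 6 5 := n61.y4 hs
  have o83 : MM t P 2 8 3 := n33.rc hs o65
  have o74 : MM t P 2 7 4 := n70.y4 hs
  have n42 : MM t P 1 4 2 := MM.kill hk n52 n43 o83 o74 (by norm_num)
  have m01 : MM t P 0 0 1 := MM.kill hk m11 m02 n42 n33 (by norm_num)
  have n51 : MM t P 1 5 1 := m01.rc hs n33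
  have m10 : MM t P 0 1 0 := MM.kill hk m20 m11 n51 n42 (by norm_num)
  have n60 : MM t P 1 6 0 := m10.rc hs n42
  have n23 : MM t P 1 2 3 := m20.ry0 hs n60 n51
  have o55 : MM t P 2 5 5 := n51.y4 hs
  have o73 : MM t P 2 7 3 := n23.rc hs o55
  have o64 : MM t P 2 6 4 := n60.y4 hs
  have n32 : MM t P 1 3 2 := MM.kill hk n42 n33 o73 o64 (by norm_num)
  have o82 : MM t P 2 8 2 := n32.rc hs o64
  have n41 : MM t P 1 4 1 := MM.kill hk n51 n42 o82 o73 (by norm_num)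
  exact MM.kill hk m10 m01 n41 n32 (by norm_num)

end Pool.Agent.BS
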