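import Pool.Agent.helper88.BSPhi
import Pool.Agent.helper88.BSRes
import Pool.Agent.helper88.BSUpper

/-! The residue functional kills `𝒟 F^{s*+1}` but not `F^{s*}`. -/

namespace Pool.Agent.BS

open Filter Topology MvPolynomial

/-- The coefficients of the residue functional on `a / (x f)^n`. -/
noncomputable def kap (t : ℂ) (n : ℕ) : ℤ → ℤ → ℂ := fun i j => K t (i - n) j n

variable {t : ℂ}

theorem kap_supp {n B : ℕ} (h : 28 + 24 * n ≤ B) : Supp B (kap t n) := by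
  intro i j hij
  exact K_zero (by omega)

theorem f1_an (t : ℂ) (z : Fin 2 → ℂ) : AnalyticAt ℂ (f1 t) z := by
  unfold f1; fun_prop

/-- A combination of four shifts. -/
theorem Phi_poly4 {B : ℕ} {κ : ℤ → ℤ → ℂ} {g : (Fin 2 → ℂ) → ℂ} (hκ : Supp B κ)
    (hg : AnalyticAt ℂ g 0) (c1 c2 c3 c4 : ℂ) (p1 q1 p2 q2 p3 q3 p4 q4 : ℕ) :
    Phi B κ (fun w => c1 * (w 0 ^ p1 * w 1 ^ q1 * g w) + c2 * (w 0 ^ p2 * w 1 ^ q2 * g w) +
      c3 * (w 0 ^ p3 * w 1 ^ q3 * g w) + c4 * (w 0 ^ p4 * w 1 ^ q4 * g w)) =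
    Phi B (fun i j => c1 * κ (i + p1) (j + q1) + c2 * κ (i + p2) (j + q2) +
      c3 * κ (i + p3) (j + q3) + c4 * κ (i + p4) (j + q4)) g := by
  rw [Phi_add (by fun_prop) (by fun_prop), Phi_add (by fun_prop) (by fun_prop),
    Phi_add (by fun_prop) (by fun_prop), Phi_smul (by fun_prop), Phi_smul (by fun_prop),
    Phi_smul (by fun_prop), Phi_smul (by fun_prop), Phi_mon hg p1 q1 hκ, Phi_mon hg p2 q2 hκ,
    Phi_mon hg p3 q3 hκ, Phi_mon hg p4 q4 hκ, Phi_kadd, Phi_kadd, Phi_kadd, Phi_kmul, Phi_kmul,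
    Phi_kmul, Phi_kmul]

theorem Phi_f {B : ℕ} {κ : ℤ → ℤ → ℂ} {g : (Fin 2 → ℂ) → ℂ} (hκ : Supp B κ)
    (hg : AnalyticAt ℂ g 0) :
    Phi B κ (fun w => w 0 * f1 t w * g w) =
    Phi B (fun i j => κ (i + 6) j + κ (i + 1) (j + 4) + κ (i + 5) (j + 1) +
      t * κ (i + 4) (j + 2)) g := by
  have h := Phi_poly4 hκ hg 1 1 1 t 6 0 1 4 5 1 4 2
  have e : (fun w : Fin 2 → ℂ => w 0 * f1 t w * g w) = (fun w => 1 * (w 0 ^ 6 * w 1 ^ 0 * g w) +
      1 * (w 0 ^ 1 * w 1 ^ 4 * g w) + 1 * (w 0 ^ 5 * w 1 ^ 1 * g w) +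
      t * (w 0 ^ 4 * w 1 ^ 2 * g w)) := by
    funext w; simp only [f1]; ring
  rw [e, h]
  refine Phi_kcongr fun i j => ?_
  simp

theorem Lam_f (ht : ∀ q : ℚ, t ≠ q) {n B : ℕ} (hB : 28 + 24 * (n + 1) ≤ B)
    {g : (Fin 2 → ℂ) → ℂ} (hg : AnalyticAt ℂ g 0) :
    Phi B (kap t (n + 1)) (fun w => w 0 * f1 t w * g w) = Phi B (kap t n) g := by
  rw [Phi_f (kap_supp hB) hg]
  refine Phi_kcongr fun i j => ?_
  have h := K_f ht ((i : ℤ) - n) j n
  unfold kap
  rw [← h]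
  push_cast
  congr 1
  · congr 1
    · congr 1
      · congr 1; ring
      · congr 1; ring
    · congr 1; ring
  · congr 2; ring

theorem Lam_zero (ht : ∀ q : ℚ, t ≠ q) {B : ℕ} (hB : 28 ≤ B)
    {g : (Fin 2 → ℂ) → ℂ} (hg : AnalyticAt ℂ g 0) :
    Phi B (kap t 0) (fun w => w 0 * f1 t w * g w) = 0 := by
  rw [Phi_f (kap_supp hB) hg]
  have : Phi B (fun _ _ => 0) g = 0 := by
    unfold Phi; simp
  refine Eq.trans (Phi_kcongr (κ' := fun _ _ => 0) fun i j => ?_) this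
  have h := K_f ht ((i : ℤ) + 1) j (-1)
  rw [K_neg_one ht i j] at h
  unfold kap
  have a1 : (i : ℤ) + 6 - ((0 : ℕ) : ℤ) = (i : ℤ) + 1 + 5 := by push_cast; ring
  have a2 : (i : ℤ) + 1 - ((0 : ℕ) : ℤ) = (i : ℤ) + 1 := by push_cast; ring
  have a3 : (i : ℤ) + 5 - ((0 : ℕ) : ℤ) = (i : ℤ) + 1 + 4 := by push_cast; ring
  have a4 : (i : ℤ) + 4 - ((0 : ℕ) : ℤ) = (i : ℤ) + 1 + 3 := by push_cast; ring
  rw [a1, a2, a3, a4]
  exact h

theorem Lam_x (ht : ∀ q : ℚ, t ≠ q) {n B : ℕ} (hB : 28 + 24 * (n + 1) ≤ B)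
    {g : (Fin 2 → ℂ) → ℂ} (hg : AnalyticAt ℂ g 0) :
    Phi B (kap t (n + 1)) (fun w => w 0 * f1 t w * pd 0 g w +
      (((10 * t - 5) - n) * f1 t w + (-2 * t - 3 / 4 - n) * (w 0 * pd 0 (f1 t) w)) * g w) = 0 := by
  have hpg : AnalyticAt ℂ (pd 0 g) 0 := analytic_pd hg
  have hf := f1_an t 0
  have hpf : AnalyticAt ℂ (pd 0 (f1 t)) 0 := analytic_pd hf
  rw [Phi_add (by fun_prop) (by fun_prop), Lam_f ht hB hpg,
    Phi_dx hg (kap_supp (by omega))]
  have e : (fun w : Fin 2 → ℂ => (((10 * t - 5) - n) * f1 t w +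
      (-2 * t - 3 / 4 - n) * (w 0 * pd 0 (f1 t) w)) * g w) =
      (fun w => ((10 * t - 5 - n) + 5 * (-2 * t - 3 / 4 - n)) * (w 0 ^ 5 * w 1 ^ 0 * g w) +
      (10 * t - 5 - n) * (w 0 ^ 0 * w 1 ^ 4 * g w) +
      ((10 * t - 5 - n) + 4 * (-2 * t - 3 / 4 - n)) * (w 0 ^ 4 * w 1 ^ 1 * g w) +
      (t * (10 * t - 5 - n) + 3 * t * (-2 * t - 3 / 4 - n)) * (w 0 ^ 3 * w 1 ^ 2 * g w)) := by
    funext w; rw [pd0_f1]; simp only [f1]; ring
  rw [e, Phi_poly4 (kap_supp hB) hg, ← Phi_kadd]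
  have : Phi B (fun _ _ => 0) g = 0 := by
    unfold Phi; simp
  refine Eq.trans (Phi_kcongr (κ' := fun _ _ => 0) fun i j => ?_) this
  have h1 := K_x ht ((i : ℤ) - n) j n
  have h2 := K_f ht ((i : ℤ) - n - 1) j n
  unfold kap
  have a1 : (i : ℤ) + 5 - (n + 1) = (i : ℤ) - n - 1 + 5 := by ring
  have a2 : (i : ℤ) - (n + 1) = (i : ℤ) - n - 1 := by ring
  have a3 : (i : ℤ) + 4 - (n + 1) = (i : ℤ) - n - 1 + 4 := by ring
  have a4 : (i : ℤ) + 3 - (n + 1) = (i : ℤ) - n - 1 + 3 := by ring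
  have b1 : (i : ℤ) - n + 4 = (i : ℤ) - n - 1 + 5 := by ring
  have b2 : (i : ℤ) - n + 3 = (i : ℤ) - n - 1 + 4 := by ring
  have b3 : (i : ℤ) - n + 2 = (i : ℤ) - n - 1 + 3 := by ring
  have c1 : (i : ℤ) - 1 - n = (i : ℤ) - n - 1 := by ring
  rw [b1, b2, b3] at h1
  push_cast at h1 ⊢
  rw [add_zero, add_zero, a1, a2, a3, a4, c1]
  linear_combination h1 + (10 * t - 5 - n) * h2

theorem Lam_y (ht : ∀ q : ℚ, t ≠ q) {n B : ℕ} (hB : 28 + 24 * (n + 1) ≤ B)
    {g : (Fin 2 → ℂ) → ℂ} (hg : AnalyticAt ℂ g 0) :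
    Phi B (kap t (n + 1)) (fun w => w 0 * f1 t w * pd 1 g w +
      (-2 * t - 3 / 4 - n) * (w 0 * pd 1 (f1 t) w) * g w) = 0 := by
  have hpg : AnalyticAt ℂ (pd 1 g) 0 := analytic_pd hg
  have hf := f1_an t 0
  have hpf : AnalyticAt ℂ (pd 1 (f1 t)) 0 := analytic_pd hf
  rw [Phi_add (by fun_prop) (by fun_prop), Lam_f ht hB hpg,
    Phi_dy (kap_supp (by omega))]
  have e : (fun w : Fin 2 → ℂ => (-2 * t - 3 / 4 - n) * (w 0 * pd 1 (f1 t) w) * g w) =
      (fun w => (4 * (-2 * t - 3 / 4 - n)) * (w 0 ^ 1 * w 1 ^ 3 * g w) +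
      (-2 * t - 3 / 4 - n) * (w 0 ^ 5 * w 1 ^ 0 * g w) +
      (2 * t * (-2 * t - 3 / 4 - n)) * (w 0 ^ 4 * w 1 ^ 1 * g w) +
      0 * (w 0 ^ 0 * w 1 ^ 0 * g w)) := by
    funext w; rw [pd1_f1]; ring
  rw [e, Phi_poly4 (kap_supp hB) hg, ← Phi_kadd]
  have : Phi B (fun _ _ => 0) g = 0 := by
    unfold Phi; simp
  refine Eq.trans (Phi_kcongr (κ' := fun _ _ => 0) fun i j => ?_) this
  have h1 := K_y ht ((i : ℤ) - n) j n
  unfold kap
  have a1 : (i : ℤ) + 1 - (n + 1) = (i : ℤ) - n := by ring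
  have a2 : (i : ℤ) + 5 - (n + 1) = (i : ℤ) - n + 4 := by ring
  have a3 : (i : ℤ) + 4 - (n + 1) = (i : ℤ) - n + 3 := by ring
  push_cast at h1 ⊢
  rw [add_zero, a1, a2, a3]
  linear_combination h1

/-- The special point. -/
noncomputable def sstar (t : ℂ) : Fin 2 → ℂ := ![-2 * t - 3 / 4, 10 * t - 5]

/-- The generator `F₁F₂ = x f`. -/
noncomputable def ff (t : ℂ) (z : Fin 2 → ℂ) : ℂ := z 0 * f1 t z

theorem ff_an (t : ℂ) (z : Fin 2 → ℂ) : AnalyticAt ℂ (ff t) z := by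
  have := f1_an t z
  unfold ff; fun_prop

theorem Lam_ff (ht : ∀ q : ℚ, t ≠ q) {n B : ℕ} (hB : 28 + 24 * (n + 1) ≤ B)
    {g : (Fin 2 → ℂ) → ℂ} (hg : AnalyticAt ℂ g 0) :
    Phi B (kap t (n + 1)) (fun w => ff t w * g w) = Phi B (kap t n) g :=
  Lam_f ht hB hg

theorem Lam_ff_pow (ht : ∀ q : ℚ, t ≠ q) (n k : ℕ) : ∀ {B : ℕ}, 28 + 24 * (n + k) ≤ B →
    ∀ {g : (Fin 2 → ℂ) → ℂ}, AnalyticAt ℂ g 0 →
    Phi B (kap t (n + k)) (fun w => ff t w ^ k * g w) = Phi B (kap t n) g := by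
  induction k with
  | zero => intro B hB g hg; simp
  | succ k ih =>
    intro B hB g hg
    have hf := ff_an t 0
    have e : (fun w => ff t w ^ (k + 1) * g w) = fun w => ff t w * (ff t w ^ k * g w) := by
      funext w; ring
    rw [e, ← add_assoc, Lam_ff ht (by omega) (by fun_prop), ih (by omega) hg]

/-- The representation statement propagated through the `𝒟[s]`-module. -/
def Rep (t : ℂ) (G : (Fin 2 → ℂ) → (Fin 2 → ℂ) → ℂ) : Prop :=
  ∃ (n : ℕ) (a : (Fin 2 → ℂ) → ℂ), AnalyticAt ℂ a 0 ∧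
    (∀ᶠ z in 𝓝 0, ff t z ≠ 0 → G (sstar t) z = a z / ff t z ^ n) ∧
    ∀ τ : (Fin 2 → ℂ) → ℂ, AnalyticAt ℂ τ 0 → ∀ B, 28 + 24 * n ≤ B →
      Phi B (kap t n) (fun w => τ w * a w) = 0

theorem pd_quot {n : ℕ} {i : Fin n} {a f : (Fin n → ℂ) → ℂ} {z : Fin n → ℂ}
    (ha : DifferentiableAt ℂ a z) (hf : DifferentiableAt ℂ f z) (h0 : f z ≠ 0) (k : ℕ) :
    pd i (fun z => a z / f z ^ k) z =
      (f z * pd i a z - k * a z * pd i f z) / f z ^ (k + 1) := by
  have e1 : (fun z => a z / f z ^ k) = fun z => a z * (f z ^ k)⁻¹ := by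
    funext z; rw [div_eq_mul_inv]
  have h1' : f z ^ k ≠ 0 := pow_ne_zero _ h0
  have h3 : DifferentiableAt ℂ (fun z => f z ^ k) z := by fun_prop
  rw [e1, pd_mul ha (h3.fun_inv h1'), pd_inv (g := fun z => f z ^ k) (by fun_prop) h1',
    pd_pow (by fun_prop)]
  rcases k with _ | k
  · simp
    field_simp
  · simp
    field_simp
    ring

theorem pd0_ff (t : ℂ) (z : Fin 2 → ℂ) : pd 0 (ff t) z = f1 t z + z 0 * pd 0 (f1 t) z := by
  have := (f1_diff t)
  unfold ff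
  rw [pd_mul (by fun_prop) (by fun_prop), pd_proj]
  simp; ring

theorem pd1_ff (t : ℂ) (z : Fin 2 → ℂ) : pd 1 (ff t) z = z 0 * pd 1 (f1 t) z := by
  have := (f1_diff t)
  unfold ff
  rw [pd_mul (by fun_prop) (by fun_prop), pd_proj]
  simp

theorem rep_of_inShift (ht : ∀ q : ℚ, t ≠ q) {U : Set (Fin 2 → ℂ)} (hU : IsOpen U)
    (h0 : (0 : Fin 2 → ℂ) ∈ U) {G : (Fin 2 → ℂ) → (Fin 2 → ℂ) → ℂ}
    (hG : InShift (FF t) U G) : Rep t G := by
  have hUn : U ∈ 𝓝 (0 : Fin 2 → ℂ) := hU.mem_nhds h0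
  have hf := ff_an t 0
  induction hG with
  | gen =>
    refine ⟨0, ff t, ff_an t 0, Eventually.of_forall fun z hz => ?_, ?_⟩
    · simp [FF, Fin.prod_univ_two, ff, mul_comm]
    · intro τ hτ B hB
      have := Lam_zero ht (B := B) (by omega) hτ
      rw [← this]
      congr 1
      funext w
      simp only [ff]; ring
  | add _ _ ih1 ih2 =>
    obtain ⟨n, a, ha, hae, haΛ⟩ := ih1
    obtain ⟨m, b, hb, hbe, hbΛ⟩ := ih2
    refine ⟨n + m, fun w => ff t w ^ m * a w + ff t w ^ n * b w, by fun_prop, ?_, ?_⟩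
    · filter_upwards [hae, hbe] with z h1 h2 hz
      rw [h1 hz, h2 hz]
      field_simp
      ring
    · intro τ hτ B hB
      have e : (fun w => τ w * (ff t w ^ m * a w + ff t w ^ n * b w)) =
          fun w => ff t w ^ m * (τ w * a w) + ff t w ^ n * (τ w * b w) := by
        funext w; ring
      rw [e, Phi_add (by fun_prop) (by fun_prop)]
      have e1 := Lam_ff_pow ht n m (B := B) (by omega) (g := fun w => τ w * a w) (by fun_prop)
      have e2 := Lam_ff_pow ht m n (B := B) (by omega) (g := fun w => τ w * b w) (by fun_prop)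
      rw [add_comm m n] at e2
      rw [e1, e2, haΛ τ hτ B (by omega), hbΛ τ hτ B (by omega), add_zero]
  | mul_holo c hc _ ih =>
    obtain ⟨n, a, ha, hae, haΛ⟩ := ih
    have hc0 : AnalyticAt ℂ c 0 := hc 0 h0
    refine ⟨n, fun w => c w * a w, by fun_prop, ?_, ?_⟩
    · filter_upwards [hae] with z h1 hz
      rw [h1 hz]; ring
    · intro τ hτ B hB
      have := haΛ (fun w => τ w * c w) (by fun_prop) B hB
      rw [← this]
      congr 1
      funext w; ring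
  | mul_param j _ ih =>
    obtain ⟨n, a, ha, hae, haΛ⟩ := ih
    refine ⟨n, fun w => sstar t j * a w, by fun_prop, ?_, ?_⟩
    · filter_upwards [hae] with z h1 hz
      rw [h1 hz]; ring
    · intro τ hτ B hB
      have := haΛ (fun w => τ w * sstar t j) (by fun_prop) B hB
      rw [← this]
      congr 1
      funext w; ring
  | diff i _ ih =>
    rename_i G _
    obtain ⟨n, a, ha, hae, haΛ⟩ := ih
    have hpa : AnalyticAt ℂ (pd i a) 0 := analytic_pd ha
    have hpf : AnalyticAt ℂ (pd i (ff t)) 0 := analytic_pd hf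
    have hf1 := f1_an t 0
    have hp0 : AnalyticAt ℂ (pd 0 (f1 t)) 0 := analytic_pd hf1
    have hp1 : AnalyticAt ℂ (pd 1 (f1 t)) 0 := analytic_pd hf1
    have hder : ∀ᶠ z in 𝓝 (0 : Fin 2 → ℂ), ff t z ≠ 0 → pd i (G (sstar t)) z =
        (ff t z * pd i a z - n * a z * pd i (ff t) z) / ff t z ^ (n + 1) := by
      filter_upwards [hae.eventually_nhds, ha.eventually_analyticAt] with z hz haz hfz
      have hev : G (sstar t) =ᶠ[𝓝 z] fun w => a w / ff t w ^ n := by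
        have o1 : ∀ᶠ w in 𝓝 z, ff t w ≠ 0 :=
          (ff_an t z).continuousAt.eventually_ne hfz
        filter_upwards [hz, o1] with w h1 h2 using h1 h2
      rw [pd_congr hev, pd_quot haz.differentiableAt (ff_an t z).differentiableAt hfz]
    fin_cases i
    · -- the x-derivative
      refine ⟨n + 1, fun w => ff t w * pd 0 a w +
        (((10 * t - 5) - n) * f1 t w + (-2 * t - 3 / 4 - n) * (w 0 * pd 0 (f1 t) w)) * a w,
        by fun_prop, ?_, ?_⟩
      · filter_upwards [hae, hder] with z h1 h2 hz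
        have hz0 : z 0 ≠ 0 := left_ne_zero_of_mul hz
        have hz1 : f1 t z ≠ 0 := right_ne_zero_of_mul hz
        simp only [Fin.zero_eta, Fin.isValue] at h2 ⊢
        rw [h2 hz, h1 hz, pd0_ff]
        simp only [FF, Fin.sum_univ_two, Matrix.cons_val_zero, Matrix.cons_val_one, sstar]
        rw [pd_proj 0 0 z]
        simp only [ff]
        field_simp
        simp
        ring
      · intro τ hτ B hB
        have hpτ : AnalyticAt ℂ (pd 0 τ) 0 := analytic_pd hτ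
        have h1 := Lam_x ht hB (g := fun w => τ w * a w) (by fun_prop)
        have h2 := Lam_ff ht hB (g := fun w => pd 0 τ w * a w) (by fun_prop)
        have h3 := haΛ (pd 0 τ) hpτ B (by omega)
        rw [h3] at h2
        have e : (fun w => τ w * (ff t w * pd 0 a w + (((10 * t - 5) - n) * f1 t w +
            (-2 * t - 3 / 4 - n) * (w 0 * pd 0 (f1 t) w)) * a w)) =ᶠ[𝓝 0]
            fun w => (w 0 * f1 t w * pd 0 (fun w => τ w * a w) w +
              (((10 * t - 5) - n) * f1 t w + (-2 * t - 3 / 4 - n) * (w 0 * pd 0 (f1 t) w)) *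
                (τ w * a w)) + (-1) * (ff t w * (pd 0 τ w * a w)) := by
          filter_upwards [ha.eventually_analyticAt, hτ.eventually_analyticAt] with w h4 h5
          rw [pd_mul h5.differentiableAt h4.differentiableAt]
          simp only [ff]
          ring
        have hpm : AnalyticAt ℂ (pd 0 (fun w => τ w * a w)) 0 := analytic_pd (by fun_prop)
        rw [Phi_congr e, Phi_add (by fun_prop) (by fun_prop), Phi_smul (by fun_prop), h1, h2]
        ring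
    · -- the y-derivative
      refine ⟨n + 1, fun w => ff t w * pd 1 a w +
        (-2 * t - 3 / 4 - n) * (w 0 * pd 1 (f1 t) w) * a w,
        by fun_prop, ?_, ?_⟩
      · filter_upwards [hae, hder] with z h1 h2 hz
        have hz0 : z 0 ≠ 0 := left_ne_zero_of_mul hz
        have hz1 : f1 t z ≠ 0 := right_ne_zero_of_mul hz
        simp only [Fin.mk_one, Fin.isValue] at h2 ⊢
        rw [h2 hz, h1 hz, pd1_ff]
        simp only [FF, Fin.sum_univ_two, Matrix.cons_val_zero, Matrix.cons_val_one, sstar]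
        rw [pd_proj 1 0 z]
        simp only [ff]
        field_simp
        simp
        ring
      · intro τ hτ B hB
        have hpτ : AnalyticAt ℂ (pd 1 τ) 0 := analytic_pd hτ
        have h1 := Lam_y ht hB (g := fun w => τ w * a w) (by fun_prop)
        have h2 := Lam_ff ht hB (g := fun w => pd 1 τ w * a w) (by fun_prop)
        have h3 := haΛ (pd 1 τ) hpτ B (by omega)
        rw [h3] at h2
        have e : (fun w => τ w * (ff t w * pd 1 a w +
            (-2 * t - 3 / 4 - n) * (w 0 * pd 1 (f1 t) w) * a w)) =ᶠ[𝓝 0]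
            fun w => (w 0 * f1 t w * pd 1 (fun w => τ w * a w) w +
              (-2 * t - 3 / 4 - n) * (w 0 * pd 1 (f1 t) w) *
                (τ w * a w)) + (-1) * (ff t w * (pd 1 τ w * a w)) := by
          filter_upwards [ha.eventually_analyticAt, hτ.eventually_analyticAt] with w h4 h5
          rw [pd_mul h5.differentiableAt h4.differentiableAt]
          simp only [ff]
          ring
        have hpm : AnalyticAt ℂ (pd 1 (fun w => τ w * a w)) 0 := analytic_pd (by fun_prop)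
        rw [Phi_congr e, Phi_add (by fun_prop) (by fun_prop), Phi_smul (by fun_prop), h1, h2]
        ring

/-- Every element of the Bernstein-Sato ideal vanishes at `s*`. -/
theorem eval_sstar (ht : ∀ q : ℚ, t ≠ q) {W : Set (Fin 2 → ℂ)} (h0 : (0 : Fin 2 → ℂ) ∈ W)
    {b : MvPolynomial (Fin 2) ℂ} (hb : b ∈ bernsteinSatoIdeal (FF t) W) :
    eval (sstar t) b = 0 := by
  obtain ⟨U, hU, h0U, G, hG, hGe⟩ := hb 0 h0
  obtain ⟨n, a, ha, hae, haΛ⟩ := rep_of_inShift ht hU h0U hG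
  have hf := ff_an t 0
  have hev : (fun w => ff t w * a w) =ᶠ[𝓝 0] fun w => eval (sstar t) b * ff t w ^ (n + 1) := by
    filter_upwards [hae, hU.mem_nhds h0U] with z h1 hz
    by_cases hfz : ff t z = 0
    · simp [hfz]
    · have hz0 : z 0 ≠ 0 := left_ne_zero_of_mul hfz
      have hz1 : f1 t z ≠ 0 := right_ne_zero_of_mul hfz
      have h2 := hGe z hz (by
        intro j; fin_cases j
        · exact hz1
        · exact hz0) (sstar t)
      rw [h1 hfz] at h2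
      rw [← h2]
      field_simp
      ring
  set τ : (Fin 2 → ℂ) → ℂ := fun w => w 0 ^ 4 * w 1 ^ 2 with hτ
  have hτa : AnalyticAt ℂ τ 0 := by rw [hτ]; fun_prop
  set B := 28 + 24 * (n + 1) with hB
  have h1 := Lam_ff ht (n := n) (B := B) le_rfl (g := fun w => τ w * a w) (by fun_prop)
  rw [haΛ τ hτa B (by omega)] at h1
  have e1 : (fun w => ff t w * (τ w * a w)) =ᶠ[𝓝 0]
      fun w => eval (sstar t) b * (ff t w ^ (n + 1) * τ w) := by
    filter_upwards [hev] with w hw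
    linear_combination (τ w) * hw
  rw [Phi_congr e1, Phi_smul (by fun_prop)] at h1
  have h2 := Lam_ff_pow ht 0 (n + 1) (B := B) (by omega) hτa
  rw [zero_add] at h2
  rw [h2] at h1
  have h3 : Phi B (kap t 0) τ = K t 4 2 0 := by
    have e2 : τ = fun w => w 0 ^ 4 * w 1 ^ 2 * 1 := by funext w; rw [hτ]; ring
    rw [e2, Phi_mon (g := fun _ => 1) analyticAt_const 4 2 (kap_supp (by omega)),
      Phi_one (by omega)]
    unfold kap
    norm_num
  rw [h3] at h1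
  exact (mul_eq_zero.mp h1).resolve_right (K_main ht)

end Pool.Agent.BS
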