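import Pool.Agent.helper88.BSDefs

namespace Pool.Agent.BS

variable {n : ℕ}

@[fun_prop]
theorem analytic_proj (i : Fin n) (z : Fin n → ℂ) :
    AnalyticAt ℂ (fun w : Fin n → ℂ => w i) z :=
  (ContinuousLinearMap.proj (R := ℂ) (φ := fun _ : Fin n => ℂ) i).analyticAt z

theorem pd_congr {i : Fin n} {g h : (Fin n → ℂ) → ℂ} {z : Fin n → ℂ} (H : g =ᶠ[nhds z] h) :
    pd i g z = pd i h z := by
  unfold pd; rw [H.fderiv_eq]

theorem pd_add {i : Fin n} {g h : (Fin n → ℂ) → ℂ} {z : Fin n → ℂ}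
    (hg : DifferentiableAt ℂ g z) (hh : DifferentiableAt ℂ h z) :
    pd i (fun z => g z + h z) z = pd i g z + pd i h z := by
  unfold pd; rw [fderiv_fun_add hg hh]; rfl

theorem pd_sub {i : Fin n} {g h : (Fin n → ℂ) → ℂ} {z : Fin n → ℂ}
    (hg : DifferentiableAt ℂ g z) (hh : DifferentiableAt ℂ h z) :
    pd i (fun z => g z - h z) z = pd i g z - pd i h z := by
  unfold pd; rw [fderiv_fun_sub hg hh]; rfl

theorem pd_mul {i : Fin n} {g h : (Fin n → ℂ) → ℂ} {z : Fin n → ℂ}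
    (hg : DifferentiableAt ℂ g z) (hh : DifferentiableAt ℂ h z) :
    pd i (fun z => g z * h z) z = g z * pd i h z + h z * pd i g z := by
  unfold pd; rw [fderiv_fun_mul hg hh]; simp

theorem pd_const_mul {i : Fin n} {h : (Fin n → ℂ) → ℂ} {z : Fin n → ℂ} (c : ℂ)
    (hh : DifferentiableAt ℂ h z) :
    pd i (fun z => c * h z) z = c * pd i h z := by
  unfold pd; rw [fderiv_const_mul hh]; simp

theorem pd_const {i : Fin n} {z : Fin n → ℂ} (c : ℂ) :
    pd i (fun _ => c) z = 0 := by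
  unfold pd; simp

theorem pd_pow {i : Fin n} {g : (Fin n → ℂ) → ℂ} {z : Fin n → ℂ}
    (hg : DifferentiableAt ℂ g z) (k : ℕ) :
    pd i (fun z => g z ^ k) z = k * g z ^ (k - 1) * pd i g z := by
  unfold pd
  rw [(hg.hasFDerivAt.pow k).fderiv]; simp

theorem pd_inv {i : Fin n} {g : (Fin n → ℂ) → ℂ} {z : Fin n → ℂ}
    (hg : DifferentiableAt ℂ g z) (h0 : g z ≠ 0) :
    pd i (fun z => (g z)⁻¹) z = - pd i g z / g z ^ 2 := by
  unfold pd
  have := (hasDerivAt_inv h0).comp_hasFDerivAt z hg.hasFDerivAt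
  have h2 : fderiv ℂ (fun z => (g z)⁻¹) z = -(g z ^ 2)⁻¹ • fderiv ℂ g z := this.fderiv
  rw [h2]
  simp
  ring

theorem pd_proj (i j : Fin n) (z : Fin n → ℂ) :
    pd i (fun z => z j) z = if j = i then 1 else 0 := by
  unfold pd
  have h : HasFDerivAt (fun z : Fin n → ℂ => z j) (ContinuousLinearMap.proj (R := ℂ) j) z :=
    hasFDerivAt_apply j z
  rw [h.fderiv]
  simp [Pi.single_apply]

theorem pd_proj_pow (i j : Fin n) (k : ℕ) (z : Fin n → ℂ) :
    pd i (fun z => z j ^ k) z = k * z j ^ (k - 1) * if j = i then 1 else 0 := by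
  rw [pd_pow (by fun_prop), pd_proj]

end Pool.Agent.BS
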