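import Pool.Agent.helper88.BSTaylor

/-! Functionals on germs given by finitely many Taylor coefficients. -/

namespace Pool.Agent.BS

open Filter Topology

/-- The functional `g ↦ ∑ T g i j * κ i j`. -/
noncomputable def Phi (B : ℕ) (κ : ℤ → ℤ → ℂ) (g : (Fin 2 → ℂ) → ℂ) : ℂ :=
  ∑ i ∈ Finset.range B, ∑ j ∈ Finset.range B, T g i j * κ i j

/-- `κ` vanishes when an index is at least `B - 1`. -/
def Supp (B : ℕ) (κ : ℤ → ℤ → ℂ) : Prop :=
  ∀ i j : ℕ, B ≤ i + 1 ∨ B ≤ j + 1 → κ i j = 0

variable {g h : (Fin 2 → ℂ) → ℂ} {B : ℕ} {κ κ' : ℤ → ℤ → ℂ}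

theorem Supp.shift (hκ : Supp B κ) (p q : ℕ) : Supp B (fun i j => κ (i + p) (j + q)) := by
  intro i j hij
  have := hκ (i + p) (j + q) (by omega)
  push_cast at this
  exact this

theorem Phi_congr (H : g =ᶠ[𝓝 0] h) : Phi B κ g = Phi B κ h := by
  unfold Phi
  refine Finset.sum_congr rfl fun i _ => Finset.sum_congr rfl fun j _ => ?_
  rw [T_congr H]

theorem Phi_add (hg : AnalyticAt ℂ g 0) (hh : AnalyticAt ℂ h 0) :
    Phi B κ (fun w => g w + h w) = Phi B κ g + Phi B κ h := by
  unfold Phi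
  simp only [T_add hg hh, add_mul, Finset.sum_add_distrib]

theorem Phi_smul (hg : AnalyticAt ℂ g 0) (c : ℂ) :
    Phi B κ (fun w => c * g w) = c * Phi B κ g := by
  unfold Phi
  simp only [T_smul hg, mul_assoc, Finset.mul_sum]

theorem Phi_kadd : Phi B (fun i j => κ i j + κ' i j) g = Phi B κ g + Phi B κ' g := by
  unfold Phi
  simp only [mul_add, Finset.sum_add_distrib]

theorem Phi_kmul (c : ℂ) : Phi B (fun i j => c * κ i j) g = c * Phi B κ g := by
  unfold Phi
  simp only [Finset.mul_sum]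
  refine Finset.sum_congr rfl fun i _ => Finset.sum_congr rfl fun j _ => ?_
  ring

theorem Phi_kcongr (H : ∀ i j : ℕ, κ i j = κ' i j) : Phi B κ g = Phi B κ' g := by
  unfold Phi
  refine Finset.sum_congr rfl fun i _ => Finset.sum_congr rfl fun j _ => ?_
  rw [H]

theorem Phi_x (hg : AnalyticAt ℂ g 0) (hκ : Supp B κ) :
    Phi B κ (fun w => w 0 * g w) = Phi B (fun i j => κ (i + 1) j) g := by
  unfold Phi
  rcases B with _ | B
  · simp
  conv_lhs => rw [Finset.sum_range_succ']
  conv_rhs => rw [Finset.sum_range_succ]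
  simp only [T_x_zero hg, T_x_succ hg, zero_mul, Finset.sum_const_zero, add_zero]
  have : ∑ j ∈ Finset.range (B + 1), T g B j * κ ((B : ℤ) + 1) j = 0 := by
    refine Finset.sum_eq_zero fun j _ => ?_
    have := hκ (B + 1) j (by omega)
    push_cast at this
    rw [this, mul_zero]
  rw [this, add_zero]
  refine Finset.sum_congr rfl fun i _ => Finset.sum_congr rfl fun j _ => ?_
  push_cast
  rfl

theorem Phi_y (hg : AnalyticAt ℂ g 0) (hκ : Supp B κ) :
    Phi B κ (fun w => w 1 * g w) = Phi B (fun i j => κ i (j + 1)) g := by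
  unfold Phi
  refine Finset.sum_congr rfl fun i _ => ?_
  rcases B with _ | B
  · simp
  conv_lhs => rw [Finset.sum_range_succ']
  conv_rhs => rw [Finset.sum_range_succ]
  simp only [T_y_zero hg, T_y_succ hg, zero_mul, add_zero]
  have : T g i B * κ i ((B : ℤ) + 1) = 0 := by
    have := hκ i (B + 1) (by omega)
    push_cast at this
    rw [this, mul_zero]
  rw [this, add_zero]
  refine Finset.sum_congr rfl fun j _ => ?_
  push_cast
  rfl

theorem Phi_dx (hg : AnalyticAt ℂ g 0) (hκ : Supp B κ) :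
    Phi B κ (pd 0 g) = Phi B (fun i j => i * κ (i - 1) j) g := by
  unfold Phi
  rcases B with _ | B
  · simp
  conv_lhs => rw [Finset.sum_range_succ]
  conv_rhs => rw [Finset.sum_range_succ']
  simp only [T_dx hg]
  have : ∑ j ∈ Finset.range (B + 1), (B + 1 : ℂ) * T g (B + 1) j * κ (B : ℤ) j = 0 := by
    refine Finset.sum_eq_zero fun j _ => ?_
    rw [hκ B j (by omega), mul_zero]
  rw [this, add_zero]
  have h2 : ∑ j ∈ Finset.range (B + 1), T g 0 j * (((0 : ℕ) : ℤ) * κ (((0 : ℕ) : ℤ) - 1) j) = 0 := by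
    refine Finset.sum_eq_zero fun j _ => ?_
    simp
  rw [h2, add_zero]
  refine Finset.sum_congr rfl fun i _ => Finset.sum_congr rfl fun j _ => ?_
  push_cast
  rw [add_sub_cancel_right]
  ring

theorem Phi_dy (hκ : Supp B κ) :
    Phi B κ (pd 1 g) = Phi B (fun i j => j * κ i (j - 1)) g := by
  unfold Phi
  refine Finset.sum_congr rfl fun i _ => ?_
  rcases B with _ | B
  · simp
  conv_lhs => rw [Finset.sum_range_succ]
  conv_rhs => rw [Finset.sum_range_succ']
  simp only [T_dy]
  have : (B + 1 : ℂ) * T g i (B + 1) * κ i (B : ℤ) = 0 := by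
    rw [hκ i B (by omega), mul_zero]
  rw [this, add_zero]
  have h2 : T g i 0 * (((0 : ℕ) : ℤ) * κ i (((0 : ℕ) : ℤ) - 1)) = 0 := by simp
  rw [h2, add_zero]
  refine Finset.sum_congr rfl fun j _ => ?_
  push_cast
  rw [add_sub_cancel_right]
  ring

theorem Phi_mon (hg : AnalyticAt ℂ g 0) (p q : ℕ) : ∀ {κ : ℤ → ℤ → ℂ}, Supp B κ →
    Phi B κ (fun w => w 0 ^ p * w 1 ^ q * g w) = Phi B (fun i j => κ (i + p) (j + q)) g := by
  induction p with
  | zero =>
    induction q with
    | zero => intro κ hκ; simp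
    | succ q ih =>
      intro κ hκ
      have e : (fun w : Fin 2 → ℂ => w 0 ^ 0 * w 1 ^ (q + 1) * g w) =
          fun w => w 1 * (w 0 ^ 0 * w 1 ^ q * g w) := by funext w; ring
      rw [e, Phi_y (by fun_prop) hκ]
      have hs : Supp B (fun i j => κ i (j + 1)) := by
        have := hκ.shift 0 1
        simpa using this
      rw [ih hs]
      refine Phi_kcongr fun i j => ?_
      push_cast
      rw [add_assoc]
  | succ p ih =>
    intro κ hκ
    have e : (fun w : Fin 2 → ℂ => w 0 ^ (p + 1) * w 1 ^ q * g w) =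
        fun w => w 0 * (w 0 ^ p * w 1 ^ q * g w) := by funext w; ring
    rw [e, Phi_x (by fun_prop) hκ]
    have hs : Supp B (fun i j => κ (i + 1) j) := by
      have := hκ.shift 1 0
      simpa using this
    rw [ih hs]
    refine Phi_kcongr fun i j => ?_
    push_cast
    rw [add_assoc]

theorem Phi_one (hB : 0 < B) : Phi B κ (fun _ => 1) = κ 0 0 := by
  unfold Phi
  obtain ⟨B, rfl⟩ := Nat.exists_eq_succ_of_ne_zero hB.ne'
  rw [Finset.sum_eq_single 0, Finset.sum_eq_single 0]
  · simp [T_one]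
  · intro j _ hj; simp [T_one, hj]
  · intro h; exact absurd (Finset.mem_range.mpr (Nat.succ_pos B)) h
  · intro i _ hi
    refine Finset.sum_eq_zero fun j _ => ?_
    simp [T_one, hi]
  · intro h; exact absurd (Finset.mem_range.mpr (Nat.succ_pos B)) h

end Pool.Agent.BS
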