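import Pool.Agent.helper88.BSPd

/-! Taylor coefficients at `0` of germs of holomorphic functions of two variables. -/

namespace Pool.Agent.BS

open Filter Topology

section general

variable {n : ℕ}

theorem analytic_pd {i : Fin n} {g : (Fin n → ℂ) → ℂ} {z : Fin n → ℂ} (h : AnalyticAt ℂ g z) :
    AnalyticAt ℂ (pd i g) z := by
  have h1 := h.fderiv
  exact ((ContinuousLinearMap.apply ℂ ℂ (Pi.single i 1 : Fin n → ℂ)).analyticAt _).comp h1

theorem pd_evt {i : Fin n} {g h : (Fin n → ℂ) → ℂ} {z : Fin n → ℂ} (H : g =ᶠ[𝓝 z] h) :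
    pd i g =ᶠ[𝓝 z] pd i h := by
  filter_upwards [H.fderiv (𝕜 := ℂ)] with w hw
  unfold pd; rw [hw]

theorem pd_comm {i j : Fin n} {g : (Fin n → ℂ) → ℂ} {z : Fin n → ℂ} (h : AnalyticAt ℂ g z) :
    pd i (pd j g) z = pd j (pd i g) z := by
  have hs := (h.contDiffAt (n := ⊤)).isSymmSndFDerivAt_of_omega
  have h1 : DifferentiableAt ℂ (fderiv ℂ g) z := h.fderiv.differentiableAt
  have key : ∀ i j : Fin n, pd i (pd j g) z =
      fderiv ℂ (fderiv ℂ g) z (Pi.single i 1) (Pi.single j 1) := by
    intro i j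
    unfold pd
    rw [fderiv_clm_apply h1 (by fun_prop)]
    simp
  rw [key, key]
  exact hs _ _

theorem iter_evt {i : Fin n} {g h : (Fin n → ℂ) → ℂ} {z : Fin n → ℂ} (H : g =ᶠ[𝓝 z] h) (k : ℕ) :
    (pd i)^[k] g =ᶠ[𝓝 z] (pd i)^[k] h := by
  induction k with
  | zero => simpa using H
  | succ k ih => rw [Function.iterate_succ_apply', Function.iterate_succ_apply']; exact pd_evt ih

theorem analytic_iter {i : Fin n} {g : (Fin n → ℂ) → ℂ} {z : Fin n → ℂ} (h : AnalyticAt ℂ g z)
    (k : ℕ) : AnalyticAt ℂ ((pd i)^[k] g) z := by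
  induction k with
  | zero => simpa using h
  | succ k ih => rw [Function.iterate_succ_apply']; exact analytic_pd ih

theorem iter_comm {i j : Fin n} {g : (Fin n → ℂ) → ℂ} {z : Fin n → ℂ} (h : AnalyticAt ℂ g z)
    (k : ℕ) : (pd j)^[k] (pd i g) =ᶠ[𝓝 z] pd i ((pd j)^[k] g) := by
  induction k with
  | zero => simp
  | succ k ih =>
    rw [Function.iterate_succ_apply', Function.iterate_succ_apply']
    refine (pd_evt ih).trans ?_
    filter_upwards [(analytic_iter (i := j) h k).eventually_analyticAt] with w hw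
    exact pd_comm hw

theorem iter_add {i : Fin n} {g h : (Fin n → ℂ) → ℂ} {z : Fin n → ℂ} (hg : AnalyticAt ℂ g z)
    (hh : AnalyticAt ℂ h z) (k : ℕ) :
    (pd i)^[k] (fun w => g w + h w) =ᶠ[𝓝 z] fun w => (pd i)^[k] g w + (pd i)^[k] h w := by
  induction k with
  | zero => simp
  | succ k ih =>
    rw [Function.iterate_succ_apply']
    refine (pd_evt ih).trans ?_
    filter_upwards [(analytic_iter (i := i) hg k).eventually_analyticAt,
      (analytic_iter (i := i) hh k).eventually_analyticAt] with w h1 h2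
    rw [pd_add h1.differentiableAt h2.differentiableAt, Function.iterate_succ_apply',
      Function.iterate_succ_apply']

theorem iter_smul {i : Fin n} {g : (Fin n → ℂ) → ℂ} {z : Fin n → ℂ} (hg : AnalyticAt ℂ g z)
    (c : ℂ) (k : ℕ) :
    (pd i)^[k] (fun w => c * g w) =ᶠ[𝓝 z] fun w => c * (pd i)^[k] g w := by
  induction k with
  | zero => simp
  | succ k ih =>
    rw [Function.iterate_succ_apply']
    refine (pd_evt ih).trans ?_
    filter_upwards [(analytic_iter (i := i) hg k).eventually_analyticAt] with w h1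
    rw [pd_const_mul _ h1.differentiableAt, Function.iterate_succ_apply']

theorem iter_proj_ne {i j : Fin n} (hij : j ≠ i) {g : (Fin n → ℂ) → ℂ} {z : Fin n → ℂ}
    (hg : AnalyticAt ℂ g z) (k : ℕ) :
    (pd i)^[k] (fun w => w j * g w) =ᶠ[𝓝 z] fun w => w j * (pd i)^[k] g w := by
  induction k with
  | zero => simp
  | succ k ih =>
    rw [Function.iterate_succ_apply']
    refine (pd_evt ih).trans ?_
    filter_upwards [(analytic_iter (i := i) hg k).eventually_analyticAt] with w h1
    rw [pd_mul (by fun_prop) h1.differentiableAt, Function.iterate_succ_apply', pd_proj]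
    simp [hij]

theorem iter_proj_self {i : Fin n} {g : (Fin n → ℂ) → ℂ} {z : Fin n → ℂ}
    (hg : AnalyticAt ℂ g z) (k : ℕ) :
    (pd i)^[k + 1] (fun w => w i * g w) =ᶠ[𝓝 z]
      fun w => w i * (pd i)^[k + 1] g w + (k + 1) * (pd i)^[k] g w := by
  induction k with
  | zero =>
    filter_upwards [hg.eventually_analyticAt] with w h1
    simp only [zero_add, Function.iterate_one, Function.iterate_zero, id]
    rw [pd_mul (by fun_prop) h1.differentiableAt, pd_proj]
    simp
  | succ k ih =>
    rw [Function.iterate_succ_apply']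
    refine (pd_evt ih).trans ?_
    filter_upwards [(analytic_iter (i := i) hg (k + 1)).eventually_analyticAt,
      (analytic_iter (i := i) hg k).eventually_analyticAt] with w h1 h2
    have d1 := h1.differentiableAt
    have d2 := h2.differentiableAt
    rw [pd_add (by fun_prop) (by fun_prop), pd_mul (by fun_prop) d1, pd_proj,
      pd_const_mul _ d2, ← Function.iterate_succ_apply' (pd i) (k + 1) g,
      ← Function.iterate_succ_apply' (pd i) k g]
    simp
    ring

end general

/-- The Taylor coefficient of `x^i y^j` at `0`. -/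
noncomputable def T (g : (Fin 2 → ℂ) → ℂ) (i j : ℕ) : ℂ :=
  (pd 0)^[i] ((pd 1)^[j] g) 0 / (i.factorial * j.factorial)

variable {g h : (Fin 2 → ℂ) → ℂ}

theorem T_congr (H : g =ᶠ[𝓝 0] h) (i j : ℕ) : T g i j = T h i j := by
  unfold T
  rw [(iter_evt (iter_evt H j) i).eq_of_nhds]

theorem T_add (hg : AnalyticAt ℂ g 0) (hh : AnalyticAt ℂ h 0) (i j : ℕ) :
    T (fun w => g w + h w) i j = T g i j + T h i j := by
  unfold T
  rw [(iter_evt (iter_add hg hh j) i).eq_of_nhds,
    (iter_add (analytic_iter hg j) (analytic_iter hh j) i).eq_of_nhds]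
  ring

theorem T_smul (hg : AnalyticAt ℂ g 0) (c : ℂ) (i j : ℕ) :
    T (fun w => c * g w) i j = c * T g i j := by
  unfold T
  rw [(iter_evt (iter_smul hg c j) i).eq_of_nhds,
    (iter_smul (analytic_iter hg j) c i).eq_of_nhds]
  ring

theorem T_x_zero (hg : AnalyticAt ℂ g 0) (j : ℕ) : T (fun w => w 0 * g w) 0 j = 0 := by
  unfold T
  rw [(iter_evt (iter_proj_ne (i := 1) (j := 0) (by decide) hg j) 0).eq_of_nhds]
  simp

theorem T_x_succ (hg : AnalyticAt ℂ g 0) (i j : ℕ) :
    T (fun w => w 0 * g w) (i + 1) j = T g i j := by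
  unfold T
  rw [(iter_evt (iter_proj_ne (i := 1) (j := 0) (by decide) hg j) (i + 1)).eq_of_nhds,
    (iter_proj_self (analytic_iter hg j) i).eq_of_nhds, Nat.factorial_succ]
  have h1 : ((i : ℂ) + 1) ≠ 0 := by exact_mod_cast Nat.succ_ne_zero i
  have h2 : (i.factorial : ℂ) ≠ 0 := by exact_mod_cast i.factorial_ne_zero
  have h3 : (j.factorial : ℂ) ≠ 0 := by exact_mod_cast j.factorial_ne_zero
  simp only [Pi.zero_apply, zero_mul, zero_add]
  push_cast
  field_simp

theorem T_y_zero (hg : AnalyticAt ℂ g 0) (i : ℕ) : T (fun w => w 1 * g w) i 0 = 0 := by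
  unfold T
  simp only [Function.iterate_zero, id]
  rw [(iter_proj_ne (i := 0) (j := 1) (by decide) hg i).eq_of_nhds]
  simp

theorem T_y_succ (hg : AnalyticAt ℂ g 0) (i j : ℕ) :
    T (fun w => w 1 * g w) i (j + 1) = T g i j := by
  unfold T
  rw [(iter_evt (iter_proj_self (i := 1) hg j) i).eq_of_nhds]
  have e1 : AnalyticAt ℂ (fun w : Fin 2 → ℂ => w 1 * (pd 1)^[j + 1] g w) 0 := by
    exact (analytic_proj 1 0).mul (analytic_iter (i := 1) hg (j + 1))
  have e2 : AnalyticAt ℂ (fun w : Fin 2 → ℂ => ((j : ℂ) + 1) * (pd 1)^[j] g w) 0 := by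
    exact analyticAt_const.mul (analytic_iter (i := 1) hg j)
  rw [(iter_add e1 e2 i).eq_of_nhds,
    (iter_proj_ne (i := 0) (j := 1) (by decide) (analytic_iter hg (j + 1)) i).eq_of_nhds,
    (iter_smul (analytic_iter hg j) _ i).eq_of_nhds, Nat.factorial_succ]
  have h1 : ((j : ℂ) + 1) ≠ 0 := by exact_mod_cast Nat.succ_ne_zero j
  have h2 : (i.factorial : ℂ) ≠ 0 := by exact_mod_cast i.factorial_ne_zero
  have h3 : (j.factorial : ℂ) ≠ 0 := by exact_mod_cast j.factorial_ne_zero
  simp only [Pi.zero_apply, zero_mul, zero_add]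
  push_cast
  field_simp

theorem T_dx (hg : AnalyticAt ℂ g 0) (i j : ℕ) : T (pd 0 g) i j = (i + 1) * T g (i + 1) j := by
  unfold T
  rw [(iter_evt (iter_comm (i := 0) (j := 1) hg j) i).eq_of_nhds,
    ← Function.iterate_succ_apply, Nat.factorial_succ]
  have h1 : ((i : ℂ) + 1) ≠ 0 := by exact_mod_cast Nat.succ_ne_zero i
  have h2 : (i.factorial : ℂ) ≠ 0 := by exact_mod_cast i.factorial_ne_zero
  have h3 : (j.factorial : ℂ) ≠ 0 := by exact_mod_cast j.factorial_ne_zero
  push_cast
  field_simp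

theorem T_dy (i j : ℕ) : T (pd 1 g) i j = (j + 1) * T g i (j + 1) := by
  unfold T
  rw [← Function.iterate_succ_apply, Nat.factorial_succ]
  have h1 : ((j : ℂ) + 1) ≠ 0 := by exact_mod_cast Nat.succ_ne_zero j
  have h2 : (i.factorial : ℂ) ≠ 0 := by exact_mod_cast i.factorial_ne_zero
  have h3 : (j.factorial : ℂ) ≠ 0 := by exact_mod_cast j.factorial_ne_zero
  push_cast
  field_simp

theorem iter_const (i : Fin 2) (c : ℂ) (k : ℕ) :
    (pd i)^[k + 1] (fun _ : Fin 2 → ℂ => c) = fun _ => 0 := by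
  induction k with
  | zero => funext w; simp [pd_const]
  | succ k ih => rw [Function.iterate_succ_apply', ih]; funext w; exact pd_const 0

theorem T_one (i j : ℕ) : T (fun _ => 1) i j = if i = 0 ∧ j = 0 then 1 else 0 := by
  unfold T
  rcases j with _ | j
  · rcases i with _ | i
    · simp
    · simp only [Function.iterate_zero, id]
      rw [iter_const]; simp
  · rw [iter_const]
    rcases i with _ | i
    · simp
    · rw [iter_const]; simp

end Pool.Agent.BS
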